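import Mathlib
import Pool.Agent.Helper18.UW.GoalsP
import Pool.Agent.Helper18.UW.GoalsZ

/-!
# Project UN (MP_d3128a_ag): all plane linear systems, nine largest multiplicities free

Definitions. Continuation of project UW (`Pool/Agent/Helper18/UW/Defs.lean`). Differences to UW: the row
lengths are `ℓ y`, `y < R` (any profile as in `Pf`), `A` is the scale of the lengths (`ℓ y ≤ A`, almost equal to
`A` in the last rows), independent of the number of rows `R`; in the last `M` rows the lengths are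
linear with slope `βp - βm`, `-1 ≤ βp - βm ≤ 9`. The points `c < N00` are huge (`m c ≤ Mb`), the points
`N00 ≤ c < N0` are arbitrary (`m c ≤ M`), the points `N0 ≤ c < N` have `m c ≤ μ`.
`J = R - 1 - μ`, `w = R - 1 - y`.
-/

set_option autoImplicit false

namespace Pool.Agent.Helper43.UN

open Finset
open Pool.Agent.Lead.Sh
open Pool.Agent.Helper43.Hw (T na va lz Play aa ac sc oo sk U Dd Sd Pn nx bb np)
open Pool.Agent.Helper18.EW (Gr Ex kk Pau gV)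
open Pool.Agent.Helper18.UW (Par4 UGrp uV UPlay uz UPre uo us vk vx vd)

/-- the row lengths of the game (`y = 0` is the first row which is filled, the last rows are the long
ones): nondecreasing except in the last `E0` rows, where they may decrease by one per row -/
structure Pf (M Mb R A E0 : ℕ) (ℓ : ℕ → ℕ) : Prop where
  M1 : 1 ≤ M
  MMb : M ≤ Mb
  E1 : 60 * M ≤ E0
  R1 : 100 * M ≤ R
  RE : E0 + 2 * Mb + 2 ≤ R
  A1 : 2 ^ 30 * M ≤ A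
  pos : ∀ y < R, 1 ≤ ℓ y
  up : ∀ y, y + 1 < R → ℓ y < ℓ (y + 1) ∨ (Mb ≤ ℓ y ∧ ℓ y ≤ ℓ (y + 1)) ∨
    (R ≤ y + E0 ∧ ℓ y ≤ ℓ (y + 1) + 1)
  nine : ∀ y, R ≤ y + 60 * M → y + 1 < R → ℓ (y + 1) ≤ ℓ y + 9
  le : ∀ y < R, ℓ y ≤ A
  fl : ∀ y, R ≤ y + E0 → y < R → 99 * A ≤ 100 * ℓ y

/-- the setting of the real play which fills the rows up to `R - 1 - μ` exactly -/
structure Sg (m : ℕ → ℕ) (M Mb μ R A E0 N00 N0 N : ℕ) (ℓ : ℕ → ℕ) (Z : ℤ) : Prop where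
  pf : Pf M Mb R A E0 ℓ
  μ1 : 1 ≤ μ
  μM : μ ≤ M
  N0a : N00 ≤ N0
  N0b : N0 ≤ N
  pre0 : ∀ c < N00, 1 ≤ m c ∧ m c ≤ Mb
  pre : ∀ c, N00 ≤ c → c < N0 → 1 ≤ m c ∧ m c ≤ M
  main : ∀ c, N0 ≤ c → c < N → 1 ≤ m c ∧ m c ≤ μ
  pa0 : ∑ c ∈ range N00, T (m c) < ∑ z ∈ range (R - E0 - 2 * Mb), ℓ z
  pa : ∑ c ∈ range N0, T (m c) < ∑ z ∈ range (R - 60 * M), ℓ z
  tot : ∑ z ∈ range R, (ℓ z : ℤ) = ∑ c ∈ range N, (T (m c) : ℤ) + Z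
  Zs : 4 * |Z| ≤ (μ : ℤ) * A

/-- the hypotheses of the window theorem after the choice of the numbers -/
structure Su (m ms : ℕ → ℕ) (M Mb μ δ R A E0 βp βm N00 N0 N K b l Lg q v : ℕ) (ℓ : ℕ → ℕ)
    (W : ℤ) : Prop where
  sg : Sg m M Mb μ R A E0 N00 N0 N ℓ (∑ i ∈ range K, (T (ms i) : ℤ) + W)
  par : Par4 μ R K b l Lg q
  bp : βp ≤ 9
  bm : βm ≤ 1
  lin : ∀ y, R ≤ y + 1 + M → y + 1 < R → ℓ (y + 1) + βm = ℓ y + βp
  d1 : 20 * δ ≤ 2 ^ q * v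
  lo : 4 * μ ^ 2 ≤ l * A
  hi : l * A ≤ 32 * μ ^ 2
  v1 : 1 ≤ v
  vb : 1280 * (2 ^ q * v) ≤ b * l
  vc : b * l ≤ 2560 * (2 ^ q * v)
  hW : |W| ≤ 2 * A
  main : ∀ c, N0 ≤ c → c < N → μ ≤ m c + δ ∧ m c ≤ μ
  mono : ∀ c c', N0 ≤ c → c ≤ c' → c' < N → m c ≤ m c'
  spec : ∀ i < K, μ ≤ ms i + δ ∧ ms i ≤ μ

/-- a play with the rows `< Y` exactly filled -/
structure Bx (m : ℕ → ℕ) (M Mb μ R E0 N00 N0 N Y : ℕ) (ℓ κ x : ℕ → ℕ) : Prop where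
  play : UPlay m R N κ x
  YJ : Y + 1 + μ ≤ R
  ex : ∀ z < Y, uz m R N κ x z = ℓ z
  exY : uz m R N κ x Y ≤ ℓ Y
  kN : κ Y < N
  n0 : N0 ≤ κ (R - 60 * M)
  n00 : N00 ≤ κ (R - E0 - 2 * Mb)

/-- the real play stopped at the row `τ` (`J - v1 < τ ≤ J - v1 + l`, `v1 = 2 ^ q * v`): the rows before `τ` are
exactly filled, a point becomes old at `τ`, afterwards nobody is moving -/
structure Rp (m : ℕ → ℕ) (M Mb μ R E0 N00 N0 N l q v τ : ℕ) (ℓ κ x : ℕ → ℕ) : Prop where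
  play : UPlay m R N κ x
  t1 : R - 1 - μ < τ + 2 ^ q * v
  t2 : τ + 2 ^ q * v ≤ R - 1 - μ + l
  ex : ∀ z < τ, uz m R N κ x z = ℓ z
  t0 : uz m R N κ x τ ≤ ℓ τ
  t3 : ℓ τ < uz m R N κ x τ + μ
  g1 : κ (τ - 1) < κ τ
  g2 : κ τ < N
  pa : ∀ y, τ ≤ y → y < R → κ y = κ τ ∧ x y = na (m (κ τ)) R y
  n0 : N0 ≤ κ (R - 60 * M)
  n00 : N00 ≤ κ (R - E0 - 2 * Mb)

/-- the virtual lengths -/
def vl (m : ℕ → ℕ) (μ R N1 g N τ : ℕ) (ℓ κ x : ℕ → ℕ) (y : ℕ) : ℕ :=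
  if y < τ then lz μ R (N - N1) (vk m μ R N1 g κ) (vx m μ R N1 g κ x) y
  else ℓ y + vd m μ R g N y

/-- the virtual play, stopped at `τ` for ever -/
structure Vp (μ δ R A N K b l Lg q v τ βp βm : ℕ) (S W : ℤ) (ℓ κ x : ℕ → ℕ) : Prop where
  par : Par4 μ R K b l Lg q
  bp : βp ≤ 9
  bm : βm ≤ 1
  d1 : 20 * δ ≤ 2 ^ q * v
  lo : 4 * μ ^ 2 ≤ l * A
  hi : l * A ≤ 32 * μ ^ 2
  v1 : 1 ≤ v
  vb : 1280 * (2 ^ q * v) ≤ b * l
  vc : b * l ≤ 2560 * (2 ^ q * v)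
  t1 : R - 1 - μ < τ + 2 ^ q * v
  t2 : τ + 2 ^ q * v ≤ R - 1 - μ + l
  play : Play μ R N κ x
  ex : ∀ z < τ, lz μ R N κ x z = ℓ z
  t0 : lz μ R N κ x τ ≤ ℓ τ
  t3 : ℓ τ < lz μ R N κ x τ + μ
  g2 : κ τ < N
  pa : ∀ y, τ ≤ y → y < R → κ y = κ τ ∧ x y = na μ R y
  i0 : ∀ y, τ ≤ y → y + 1 + μ < R → ℓ y ≤ ℓ (y + 1) + 1 ∧ ℓ (y + 1) ≤ ℓ y + 9
  i1 : ∀ y, R ≤ y + 1 + μ → y + 1 < R →
    ℓ y + βp ≤ ℓ (y + 1) + βm ∧ ℓ (y + 1) + βm ≤ ℓ y + βp + (N - κ τ)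
  i2 : ∀ y, R + δ ≤ y + 1 + μ → y + 1 < R → ℓ (y + 1) + βm = ℓ y + βp
  ll : ∀ y, τ ≤ y → y < R → 9 * A ≤ 10 * ℓ y ∧ 10 * ℓ y ≤ 11 * A
  un : l * (N - κ τ) ≤ 140 * μ
  oa : 10 * μ * oo μ R κ x τ ≤ 42 * A + 10 * μ
  su : ∀ z z', R ≤ z + 50 * μ → z ≤ z' → z' ≤ τ →
    l * (aa κ x z' - aa κ x z) ≤ 160 * (z' - z) + 3 * l
  dd : ∀ y, τ ≤ y → y < R → 16 * (2 ^ q * v) < R - 1 - y →
    (R - 1 - y) ^ 3 ≤ 8 * l * Dd μ R κ x y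
  tot : ∑ z ∈ range R, (ℓ z : ℤ) = N * T μ + S + W

/-- What the zone needs to know about the special points, see `EW.Ext`; the lengths have the slope
`βp - βm` (up to the special points) -/
structure Ext (μ R N K b βp βm s : ℕ) (W : ℤ) (L o k D S n : ℕ → ℕ) : Prop where
  Js : R < s + 1 + μ
  big : ∀ y, s ≤ y → y < R → 3 * μ ≤ L y
  inc : ∀ y, s ≤ y → y + 1 < R → L (y + 1) + βm = L y + βp + o y + k y
  tot : ∀ y, s ≤ y → y < R →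
    ∑ z ∈ range y, (L z : ℤ) + (R - y : ℕ) * L y + (βp + o y) * T (R - 1 - y) + S y =
      N * T μ + W + D y + βm * T (R - 1 - y)
  oa : ∀ y, s ≤ y → y + 1 < R → o (y + 1) ≤ o y
  dth : ∀ z y, s ≤ z → z ≤ y → y < R → o z + n (R - 1 - y) ≤ o y + n (R - 1 - z)
  Dn : ∀ y, s ≤ y → y < R → D y ≤ T (R - 1 - y) * n (R - 1 - y)
  nK : ∀ X, n X ≤ K
  Sq : ∀ y, s ≤ y → y < R → 2 ^ 24 * S y ≤ (R - 1 - y) * (2 ^ 24 * K + (R - y) * b)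
  kq : ∀ y, s ≤ y → y < R → 2 ^ 24 * ∑ j ∈ Ico y (R - 1), k j ≤ 2 ^ 24 * K + (R - y) * b

/-- the common hypotheses of the packets Z10n, Z10an, Z10bn -/
structure Zon (μ R N K b l Lg q βp βm s : ℕ) (W : ℤ) (L o k D S n κ x : ℕ → ℕ) (y : ℕ) :
    Prop where
  par : Par4 μ R K b l Lg q
  bm : βm ≤ 1
  ext : Ext μ R N K b βp βm s W L o k D S n
  play : Play μ R N κ x
  ex : Ex μ R N L κ x y
  sy : s ≤ y
  y2 : y + 2 ≤ R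
  pau : Pau μ R s κ x
  hnp : ∀ X ≤ μ, l * np μ R N κ x X ≤ 160 * X + 3 * l
  hD : (R - 1 - y) ^ 2 * (b * l + (R - 1 - y)) ≤ 4096 * l * (Dd μ R κ x y + D y)
  w1 : 2 ^ 23 * μ ≤ (R - 1 - y) * (b * l + (R - 1 - y))
  w3 : 2 ^ 14 * l * |W| ≤ (((R - 1 - y) ^ 2 * (b * l + (R - 1 - y)) : ℕ) : ℤ)
  ih : ∀ z, s ≤ z → z < y →
    b * l + (R - 1 - z) + 2 ^ 14 * l * (N - κ z + βm) ≤
      2 ^ 14 * l * (βp + o z + oo μ R κ x z)

/-- the region with the row `j` (`j < R`) of length `f j`, played at `y = R - 1 - j` -/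
structure Rg (D : Finset (ℕ × ℕ)) (R : ℕ) (ℓ : ℕ → ℕ) : Prop where
  row : ∀ x ∈ D, x.2 < R
  card : ∀ j < R, (D.filter (fun x => x.2 = j)).card = ℓ (R - 1 - j)

/-- the completion of a beginning of a play at the row `Y`: the `k` points which have started are old
from `Y` on, the other ones natural: `κ` -/
def ck (Y k : ℕ) (κ : ℕ → ℕ) (y : ℕ) : ℕ := if y < Y then κ y else k

/-- the same: `x` -/
def cx (m : ℕ → ℕ) (R N Y k : ℕ) (x : ℕ → ℕ) (y : ℕ) : ℕ :=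
  if y < Y then x y else if k < N then na (m k) R y else 0

/-- conditions given to the row `y` by the point `c` when the points `c < g` are played by `κ, x` and the points
`c ≥ g` by the exact filling of project SG in the rows `Y, …, R - 1` -/
def xv (m : ℕ → ℕ) (R Y g : ℕ) (κ x s z : ℕ → ℕ) (c y : ℕ) : ℕ :=
  if c < g then va (m c) R κ x c y
  else if y < Y then 0 else Pool.Agent.Helper18.SG.nv (R - Y) (m c) (s (c - g)) (z (c - g)) (y - Y)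

/-- the lengths `lam j` of the rows of the regions, `j = 0` is the longest row -/
structure Sh (M Mb R A β : ℕ) (lam : ℕ → ℕ) : Prop where
  M1 : 1 ≤ M
  MMb : M ≤ Mb
  hA : 2 ^ 400 * Pool.Agent.Helper18.UW.lg M ^ 3 * M ≤ A
  hR : 2 ^ 400 * Pool.Agent.Helper18.UW.lg M ^ 3 * M ≤ R
  hAR : A ≤ 2 ^ 8 * R
  hb : 16 * Mb ≤ R
  b9 : β ≤ 9
  z : lam 0 = A
  pos : ∀ j < R, 1 ≤ lam j
  anti : ∀ j, j + 1 < R → lam (j + 1) ≤ lam j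
  str : ∀ j, j + 1 < R → lam (j + 1) < lam j ∨ Mb ≤ lam (j + 1)
  lin : ∀ j < M, lam j = lam (j + 1) + β
  nine : ∀ j, 950 * j ≤ A → 950 * j ≤ R → lam j ≤ lam (j + 1) + 9
  area : A * R ≤ 5 * ∑ j ∈ range R, lam j

/-- the lengths after the removal of the cells `(i, j)` with `i + j < e` -/
def lc (lam : ℕ → ℕ) (e j : ℕ) : ℕ := lam j - (e - j)

end Pool.Agent.Helper43.UN
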