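import Mathlib
import Pool.Agent.Helper43.UN.Defs

/-!
# Project UN: intermediate statements (packets), the real play and the virtual play

Every packet: create `Pool/Agent/<You>/UN/<Name>.lean` with `theorem goalX : GoalX` (goals used are
hypotheses). Almost all of them are adaptations of proved packets of project UW
(`Pool/Agent/Helper18/UW/GoalsR.lean`; the file to copy is named in the docstring). What changes:
`lam + 1 + z` becomes `ℓ z` with a general profile (`Pf`), the scale of the lengths is `A` instead of `R`, there are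
also huge points `c < N00` (`m c ≤ Mb`), and the slopes are `≥ -1` (and `≤ 9` in the last rows).
General facts about a profile: for `y ≤ z < R` one has `99 ℓ y ≤ 100 ℓ z` (if `R ≤ z + E0` use `le`, `fl`; otherwise
`up` gives `ℓ y ≤ ℓ z`). `2 Mb + 2 ≤ R`, so `m c + 2 ≤ R` for all `c < N`. The statements `GoalU1`, `GoalU4`, `GoalUC`,
`GoalV1`, `GoalV2` of UW (proved) do not depend on the profile and are used as they are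
(`Pool.Agent.Helper18.UW.GoalU1` …; proofs: `Helper94/UW/U1.lean`, `Helper79/UW/U4.lean`,
`Helper12/UW/UC.lean`, `Helper40/UW/V1.lean`, `Helper13/UW/V2.lean`).
-/

set_option autoImplicit false

namespace Pool.Agent.Helper43.UN

open Finset
open Pool.Agent.Lead.Sh
open Pool.Agent.Helper43.Hw (T na va lz Play aa ac sc oo sk U Dd Sd Pn nx bb np)
open Pool.Agent.Helper18.UW (Par4 UPlay uz UPre uo us vk vx vd Vh mu)

/-- R1n (the real play until the row `J = R - 1 - μ`: all the rows `≤ J` are exactly filled). As R1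
(`Pool/Agent/Helper87/UW/R1.lean`). Induction on `y ≤ J`: there is a `UPre` on the rows `≤ y` with `uz z = ℓ z` for
`z ≤ y`, `κ y < N`, `N0 ≤ κ (R - 60 M)` if `R - 60 M ≤ y`, `N00 ≤ κ (R - E0 - 2 Mb)` if `R - E0 - 2 Mb ≤ y`. Step: complete by UC;
`A' = ∑_{c < κ y} va c (y+1)`, `A' + uo + us + x y = ℓ y` by U4/U1.7 (points `> κ y` give nothing to the rows `≤ y + 1`, see below), so
`need = ℓ (y+1) - A' = (ℓ (y+1) - ℓ y) + x y + uo + us`. It is `≥ x y + 1`: by `up`, if `ℓ y < ℓ (y+1)` this is clear; if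
`Mb ≤ ℓ y ≤ ℓ (y+1)` then `x y < m (κ y) ≤ Mb ≤ ℓ y`, so some old point is alive, `uo ≥ 1`; if `R ≤ y + E0`, `ℓ y ≤ ℓ (y+1) + 1`: the huge
points are old at `R - E0 - 2 Mb`, hence dead at `R - E0 ≤ y`, the other ones give `≤ M`, and
`ℓ y ≥ 99 A / 100 ≥ 3 M`, `ℓ y < M (uo + 1)`, so `uo ≥ 2`. Filling as in R1 (`need < m (κ y)`: `x (y+1) = need`; otherwise new old
points). `UPre.nat`: `na (m c) R y = 0` (i.e. `m c + y < R`) for all unstarted `c`: `c ≥ N0`: `y ≤ J`, `m c ≤ μ`; `N00 ≤ c < N0`: `m c ≤ M` and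
`y < R - 60 M` (later they are old); `c < N00`: `m c ≤ Mb`, `y < R - E0 - 2 Mb`. The claims at `R - 60 M`, `R - E0 - 2 Mb`: as in R1 from `pa`,
`pa0`. The points suffice: suppose that in the row `r ≤ J` all the remaining points do not exceed `need`; let
`κ r = N`, `x r = 0` (load `≤ ℓ r`), complete to a play. After `r` a point with the value `v` at `r` gives at most `v - 1, v - 2, …`,
in total `≤ v B / 2` if all the values at `r` are `≤ B`. So `∑ T (m c) ≤ ∑_{z ≤ r} ℓ z + ℓ r B / 2`, and (`tot`)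
`∑_{r < z < R} ℓ z ≤ ℓ r B / 2 + |Z|`, `4 |Z| ≤ μ A`. (a) `r ≥ R - 59 M`: the points `c < N0` are dead at `R - 59 M` (old at `R - 60 M`; the
huge ones are dead at `R - E0 - Mb`), `B = μ`; the left side is `≥ (R - 1 - r) * 99 A / 100 ≥ 99 μ A / 100`, the right side
`≤ μ A / 2 + μ A / 4`. (b) `R - E0 - Mb ≤ r < R - 59 M`: `B = M`, the left side is `≥ 58 M * 99 A / 100`. (c) `r < R - E0 - Mb`: `B = Mb`; the rows
`r < z ≤ r + Mb` give `≥ Mb * 99 ℓ r / 100` and the last `59 M` rows (`≥ R - E0`) give `≥ 58 M * 99 A / 100`. Contradiction in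
all cases. -/
def GoalR1n : Prop := ∀ (m : ℕ → ℕ) (M Mb μ R A E0 N00 N0 N : ℕ) (ℓ : ℕ → ℕ) (Z : ℤ),
  Sg m M Mb μ R A E0 N00 N0 N ℓ Z →
  ∃ κ x : ℕ → ℕ, UPre m R N (R - 1 - μ) κ x ∧
    (∀ z ≤ R - 1 - μ, uz m R N κ x z = ℓ z) ∧ κ (R - 1 - μ) < N ∧ N0 ≤ κ (R - 60 * M) ∧
    N00 ≤ κ (R - E0 - 2 * Mb)

/-- R6an (number of the old points alive). As R6a (`Pool/Agent/Helper31/UW/R6a.lean`). The points `c < N0` are dead in the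
rows `≥ R - 59 M` (huge ones: old at `R - E0 - 2 Mb`, dead at `R - E0`). An old point alive at `y` is a main point with
`y < ac + m c`. Let `y' = y - (μ + 1) / 2`. If `ac > y'` then `va c y ≥ 0.49 μ`; the number of these `c` is `≤ ℓ y / (0.49 μ)`. If
`ac ≤ y'` then at `y'` it is old or `c = κ y'`; if it is old, `va c y' ≥ μ / 2`: their number is `≤ ℓ y' / (0.5 μ) + 1`.
`ℓ y, ℓ y' ≤ A`: `10 μ uo ≤ 10 A (1/0.49 + 1/0.5) + 10 μ ≤ 42 A + 10 μ`. -/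
def GoalR6an : Prop := ∀ (m ms : ℕ → ℕ) (M Mb μ δ R A E0 βp βm N00 N0 N K b l Lg q v Y : ℕ)
  (ℓ : ℕ → ℕ) (W : ℤ) (κ x : ℕ → ℕ),
  Su m ms M Mb μ δ R A E0 βp βm N00 N0 N K b l Lg q v ℓ W →
  Bx m M Mb μ R E0 N00 N0 N Y ℓ κ x →
  ∀ y, R ≤ y + 50 * μ → y ≤ Y → 10 * μ * uo m R κ x y ≤ 42 * A + 10 * μ

/-- R6dn (a start in every `l` rows). As R6d (`Pool/Agent/Helper65/UW/R6d.lean`). For `R - 50 μ ≤ y < Y`:
`ℓ y < μ (uo y + 1)`. With `Q y = ∑_{c < κ y} m c + x y`, U4 says `Q (y+1) + ℓ y = Q y + ℓ (y+1) + uo y + us y` for `y + 1 < Y`, and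
`ℓ y ≤ ℓ (y+1) + 1` (`up`), so `Q (y+1) ≥ Q y + uo y - 1`. `μ (uo y - 1) > ℓ y - 2 μ ≥ 99 A / 100 - 2 μ`, so
`Q (z+l) - Q z ≥ l (99 A / (100 μ) - 2) ≥ 3.96 μ - 2 l > μ` (`lo`, `l` is tiny). If `κ z = κ (z + l)` then
`Q (z+l) - Q z ≤ x (z+l) < μ`. -/
def GoalR6dn : Prop := ∀ (m ms : ℕ → ℕ) (M Mb μ δ R A E0 βp βm N00 N0 N K b l Lg q v Y : ℕ)
  (ℓ : ℕ → ℕ) (W : ℤ) (κ x : ℕ → ℕ),
  Su m ms M Mb μ δ R A E0 βp βm N00 N0 N K b l Lg q v ℓ W →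
  Bx m M Mb μ R E0 N00 N0 N Y ℓ κ x →
  (∀ y, R ≤ y + 50 * μ → y < Y → ℓ y < μ * (uo m R κ x y + 1)) ∧
  ∀ z, R ≤ z + 50 * μ → z + l < Y → κ z < κ (z + l)

/-- R6en (number of the starts). As R6e (`Pool/Agent/Helper75/UW/R6e.lean`). `a = aa z`, `a' = aa z'`.
`(μ - δ) (a' - a) ≤ Q z' - Q z + μ`, `Q z' - Q z ≤ ∑_{z ≤ y < z'} (9 + uo y + us y)` (`nine`; `exY` at `Y`),
`∑ uo ≤ (z' - z) (4.2 A / μ + 1)` (R6an), `∑ us ≤ (z' - z) + μ` (a row `t` is counted for one `y` only, `y = t + m (κ t) - x t`; if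
`κ t < N0` then `t < R - 60 M`, `y ≤ t + M` is too small (huge: `t < R - E0 - 2 Mb`, `y ≤ t + Mb`); so `t > y - μ`). Multiply by `l`, `l A ≤ 32 μ²`:
`l (μ - δ) (a' - a) ≤ (z' - z) (134.4 μ + 11 l) + 2 μ l`, and `δ`, `l` are tiny compared with `μ`. -/
def GoalR6en : Prop := ∀ (m ms : ℕ → ℕ) (M Mb μ δ R A E0 βp βm N00 N0 N K b l Lg q v Y : ℕ)
  (ℓ : ℕ → ℕ) (W : ℤ) (κ x : ℕ → ℕ),
  Su m ms M Mb μ δ R A E0 βp βm N00 N0 N K b l Lg q v ℓ W →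
  Bx m M Mb μ R E0 N00 N0 N Y ℓ κ x →
  ∀ z z', R ≤ z + 50 * μ → z ≤ z' → z' ≤ Y →
    l * (aa κ x z' - aa κ x z) ≤ 160 * (z' - z) + 3 * l

/-- R2n (stopping). As R2 (`Pool/Agent/Helper34/UW/R2.lean`). Let `κ1, x1` be the play of R1n, completed by UC (`Bx` with
`Y = J`). By R6dn with `z = J - v1` there is `τ`, `z < τ ≤ z + l`, with `κ1 (τ-1) < κ1 τ`. `κ y = κ1 y`, `x y = x1 y` for `y < τ`;
`κ y = κ1 τ`, `x y = na (m (κ1 τ)) R y` for `y ≥ τ`. -/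
def GoalR2n : Prop := ∀ (m ms : ℕ → ℕ) (M Mb μ δ R A E0 βp βm N00 N0 N K b l Lg q v : ℕ)
  (ℓ : ℕ → ℕ) (W : ℤ),
  Su m ms M Mb μ δ R A E0 βp βm N00 N0 N K b l Lg q v ℓ W →
  ∃ (τ : ℕ) (κ x : ℕ → ℕ), Rp m M Mb μ R E0 N00 N0 N l q v τ ℓ κ x

/-- V0n (`Vh` holds). As V0 (`Pool/Agent/Helper51/UW/V0.lean`). `N1 = aa κ x (R - 56 μ)`, `g = κ τ`.
`N0 ≤ κ (R - 60 M) ≤ N1`. `dead`: `c < N1` has `ac c ≤ R - 56 μ`; if `c ≥ N0` then `ac c + m c ≤ R - 55 μ ≤ τ`; if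
`N00 ≤ c < N0` then `sc c ≤ R - 60 M`, `ac c + m c ≤ R - 59 M ≤ τ`; if `c < N00` then `sc c ≤ R - E0 - 2 Mb`, `ac c + m c ≤ R - E0 ≤ τ`. -/
def GoalV0n : Prop := ∀ (m ms : ℕ → ℕ) (M Mb μ δ R A E0 βp βm N00 N0 N K b l Lg q v τ : ℕ)
  (ℓ : ℕ → ℕ) (W : ℤ) (κ x : ℕ → ℕ),
  Su m ms M Mb μ δ R A E0 βp βm N00 N0 N K b l Lg q v ℓ W →
  Rp m M Mb μ R E0 N00 N0 N l q v τ ℓ κ x →
  Bx m M Mb μ R E0 N00 N0 N τ ℓ κ x ∧ N0 ≤ aa κ x (R - 56 * μ) ∧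
    Vh m μ δ R N (aa κ x (R - 56 * μ)) (κ τ) τ κ x

/-- V3sn (starts of the virtual play). As V3s (`Pool/Agent/Helper69/UW/V3s.lean`), with R6en. -/
def GoalV3sn : Prop := ∀ (m ms : ℕ → ℕ) (M Mb μ δ R A E0 βp βm N00 N0 N N1 K b l Lg q v τ : ℕ)
  (ℓ : ℕ → ℕ) (W : ℤ) (κ x : ℕ → ℕ),
  Su m ms M Mb μ δ R A E0 βp βm N00 N0 N K b l Lg q v ℓ W →
  Bx m M Mb μ R E0 N00 N0 N τ ℓ κ x → Vh m μ δ R N N1 (κ τ) τ κ x →
  ∀ z z', R ≤ z + 50 * μ → z ≤ z' → z' ≤ τ →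
    l * (aa (vk m μ R N1 (κ τ) κ) (vx m μ R N1 (κ τ) κ x) z' -
      aa (vk m μ R N1 (κ τ) κ) (vx m μ R N1 (κ τ) κ x) z) ≤ 160 * (z' - z) + 3 * l

/-- V3dn (natural deaths). As V3d (`Pool/Agent/Helper16/UW/V3d.lean`), with R6dn. -/
def GoalV3dn : Prop := ∀ (m ms : ℕ → ℕ) (M Mb μ δ R A E0 βp βm N00 N0 N N1 K b l Lg q v τ : ℕ)
  (ℓ : ℕ → ℕ) (W : ℤ) (κ x : ℕ → ℕ),
  Su m ms M Mb μ δ R A E0 βp βm N00 N0 N K b l Lg q v ℓ W →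
  Rp m M Mb μ R E0 N00 N0 N l q v τ ℓ κ x →
  Bx m M Mb μ R E0 N00 N0 N τ ℓ κ x → Vh m μ δ R N N1 (κ τ) τ κ x →
  N1 ≤ aa κ x (R - 56 * μ) →
  ∀ y, τ ≤ y → y < R → 16 * (2 ^ q * v) < R - 1 - y → (R - 1 - y) ^ 3 ≤
    8 * l * Dd μ R (vk m μ R N1 (κ τ) κ) (vx m μ R N1 (κ τ) κ x) y

/-- V3un (number of the points which have not started). As V3u (`Pool/Agent/Helper62/UW/V3u.lean`). `∑_{z<R} uz z = ∑ T (m c)`
(U1.9) and `tot` give `∑_{τ ≤ z < R} uz z = ∑_{τ ≤ z < R} ℓ z - ∑ T (ms i) - W ≤ (R - τ) A + 2 A`, and the points `c ≥ g` give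
`T (m c) ≥ T (μ - δ)` each to the rows `≥ τ`. `R - τ ≤ 1.01 μ`, `2 T (μ - δ) ≥ 0.99 μ²`: `N - g ≤ 2.1 A / μ`, `l A ≤ 32 μ²`. -/
def GoalV3un : Prop := ∀ (m ms : ℕ → ℕ) (M Mb μ δ R A E0 βp βm N00 N0 N K b l Lg q v τ : ℕ)
  (ℓ : ℕ → ℕ) (W : ℤ) (κ x : ℕ → ℕ),
  Su m ms M Mb μ δ R A E0 βp βm N00 N0 N K b l Lg q v ℓ W →
  Rp m M Mb μ R E0 N00 N0 N l q v τ ℓ κ x → l * (N - κ τ) ≤ 140 * μ

/-- VAn (the virtual play satisfies `Vp`). As VA (`Pool/Agent/Helper81/UW/VA.lean`). Assembly of V0n, V1, V2, V3sn, V3dn, V3un,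
R6an, with `N1 = aa κ x (R - 56 μ)`, `g = κ τ`, lengths `vl`. `i0`: `vd y = 0` for `y ≤ J`, and `up`, `nine` of `Pf` (the rows
`≥ τ` are among the last `60 M` rows, so `ℓ y ≤ ℓ (y+1) + 1` in all the cases of `up`). `i1`, `i2`: `lin`; every summand of `vd` grows by at
most one per row, and is constant for `y ≥ J + δ`. `ll`: `99 A ≤ 100 ℓ y ≤ 100 A`, `vd ≤ (N - g) δ ≤ A / 100` (`l (N-g) δ ≤ 140 μ δ ≤ l A / 100`). `t0`, `t3`: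
V2(1) at `τ`, `vd τ = 0`. `oa`: V2(2), R6an. `tot`: V2(4), `uz z = ℓ z` for `z < τ`, `∑ uz = ∑ T (m c)` and `Su.sg.tot`.
`vk τ = g - N1 < N - N1`, `(N - N1) - vk τ = N - g`. -/
def GoalVAn : Prop := ∀ (m ms : ℕ → ℕ) (M Mb μ δ R A E0 βp βm N00 N0 N K b l Lg q v τ : ℕ)
  (ℓ : ℕ → ℕ) (W : ℤ) (κ x : ℕ → ℕ),
  Su m ms M Mb μ δ R A E0 βp βm N00 N0 N K b l Lg q v ℓ W →
  Rp m M Mb μ R E0 N00 N0 N l q v τ ℓ κ x →
  Vh m μ δ R N (aa κ x (R - 56 * μ)) (κ τ) τ κ x ∧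
  Vp μ δ R A (N - aa κ x (R - 56 * μ)) K b l Lg q v τ βp βm
    (∑ i ∈ range K, (T (ms i) : ℤ)) W
    (vl m μ R (aa κ x (R - 56 * μ)) (κ τ) N τ ℓ κ x)
    (vk m μ R (aa κ x (R - 56 * μ)) (κ τ) κ) (vx m μ R (aa κ x (R - 56 * μ)) (κ τ) κ x)

/-- RLn (renumbering). As RL (proof in the imports of UW; `GoalRL` in `Pool/Agent/Helper18/UW/GoalsP.lean`). Enumerate `Hg`, then
`A \ (Hg ∪ Cl)`, then `Cl` with increasing multiplicities, the last `K` points of `Cl` are the special ones. -/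
def GoalRLn : Prop := ∀ (A Hg Cl : Finset ℕ) (m : ℕ → ℕ) (K : ℕ), Hg ⊆ A → Cl ⊆ A →
  Disjoint Hg Cl → K ≤ Cl.card →
  ∃ (m' ms : ℕ → ℕ) (N00 N0 N : ℕ), N00 ≤ N0 ∧ N0 ≤ N ∧
    (∀ c < N00, ∃ k ∈ Hg, m' c = m k) ∧
    (∀ c, N00 ≤ c → c < N0 → ∃ k ∈ A, k ∉ Hg ∧ m' c = m k) ∧
    (∀ c, N0 ≤ c → c < N → ∃ k ∈ Cl, m' c = m k) ∧
    (∀ i < K, ∃ k ∈ Cl, ms i = m k) ∧
    (∀ c c', N0 ≤ c → c ≤ c' → c' < N → m' c ≤ m' c') ∧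
    (∑ c ∈ range N00, (m' c + 1).choose 2 = ∑ k ∈ Hg, (m k + 1).choose 2) ∧
    (∑ c ∈ range N0, (m' c + 1).choose 2 + ∑ k ∈ Cl, (m k + 1).choose 2 =
      ∑ k ∈ A, (m k + 1).choose 2) ∧
    (∑ c ∈ range N, (m' c + 1).choose 2 + ∑ i ∈ range K, (ms i + 1).choose 2 =
      ∑ k ∈ A, (m k + 1).choose 2) ∧
    (∀ D : Finset (ℕ × ℕ), (Inj D (rows (mu m' ms N) (range (N + K))) → Inj D (rows m A)) ∧
      (Ind D (rows (mu m' ms N) (range (N + K))) → Ind D (rows m A)))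

end Pool.Agent.Helper43.UN
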