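import Mathlib
import Pool.Agent.Helper43.UN.Defs

/-!
# Project UN: intermediate statements (packets), the zone, with slope `βp - βm` (`βm ≤ 1`)

Every packet: create `Pool/Agent/<You>/UN/<Name>.lean` with `theorem goalX : GoalX` (goals used are
hypotheses). The statements are those of `Pool/Agent/Helper18/UW/GoalsZ.lean` and
`Pool/Agent/Helper18/EW/Goals2.lean` (Z8, Z11, Z12) with `Ext` of `UN/Defs.lean` (two slopes `βp`, `βm`, and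
`3 μ ≤ L y`) instead of `EW.Ext`: everywhere `N - κ z` becomes `N - κ z + βm` and `β` becomes `βp`. The proofs can be
copied: Z8 `Helper79/EW/Z8.lean`, Z9t `Helper51/UW/Z9t.lean`, Z10at `Helper56/UW/Z10at.lean`, Z10bt
`Helper24/UW/Z10bt.lean`, Z10t `Helper49/UW/Z10t.lean`, Z11 `Helper18/EW/Z11.lean`, Z12 `Helper13/EW/Z12.lean`,
Z15t `Helper75/UW/Z15t.lean`. The facts H1, H2, H4 of `Pool.Agent.Helper43.Hw` are proved
(`Pool/Agent/Helper43/Hw/Main.lean`) and so is `EW.GoalE3`; they may be used or taken as hypotheses.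
`J = R - 1 - μ`, `w = R - 1 - y`, `X = R - 1 - z`.
-/

set_option autoImplicit false

namespace Pool.Agent.Helper43.UN

open Finset
open Pool.Agent.Helper43.Hw (T na va lz Play aa ac sc oo sk U Dd Sd Pn nx bb np)
open Pool.Agent.Helper18.EW (Gr Ex kk Pau)
open Pool.Agent.Helper18.UW (Par4)

/-- Z8n (few points become old in the zone). As Z8, with `g = βp - βm + o + oo + κ - N` (integers): by E3(1) (exact rows) and
`tot`, `g y * T w ≤ Dd y + D y - S y + W`. -/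
def GoalZ8n : Prop := ∀ (μ R N K b βp βm s : ℕ) (W : ℤ) (L o k D S n κ x : ℕ → ℕ) (y z : ℕ), 1 ≤ μ →
  μ + 2 ≤ R → Ext μ R N K b βp βm s W L o k D S n → Play μ R N κ x → Ex μ R N L κ x y →
  y + 2 ≤ R → s ≤ z → z ≤ y → N - κ z + βm ≤ βp + o z + oo μ R κ x z →
  2 * (T (R - 1 - y) : ℤ) * (κ y - κ z : ℕ) ≤
    T (R - 1 - y) * (np μ R N κ x (R - 1 - z) + n (R - 1 - z)) + W

/-- Z9n. As Z9t. For `t ≥ s`, `κ (t+1) = κ t`, `t + 1 ≤ y`, `0 < x t`, H4(1) for the exact rows gives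
`x (t+1) - x t = βp - βm + o t + k t + oo t + sk t - (N - 1 - κ t)`, so
`U (t+1) - U t ≥ βp + o t + oo t - (N - κ t + βm) ≥ (b l + (R - 1 - t)) / (2^14 l)`. The rest is unchanged. -/
def GoalZ9n : Prop := ∀ (μ R N K b l Lg βp βm s y : ℕ) (W : ℤ) (L o k D S n κ x : ℕ → ℕ), 1 ≤ μ →
  μ + 2 ≤ R → 1 ≤ l → 1 ≤ b → 1 ≤ K → K ≤ b * Lg → Ext μ R N K b βp βm s W L o k D S n →
  Play μ R N κ x → Ex μ R N L κ x y → s ≤ y → y + 2 ≤ R → Pau μ R s κ x →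
  (∀ z, s ≤ z → z < y →
    b * l + (R - 1 - z) + 2 ^ 14 * l * (N - κ z + βm) ≤
      2 ^ 14 * l * (βp + o z + oo μ R κ x z)) →
  (∀ z, s ≤ z → z ≤ y → l * (κ y - κ z) ≤ 84 * (R - 1 - z) + 3 * K * l) →
  κ y - κ s < 2 ^ Lg →
  ((range y).filter (fun t => R - 1 - μ < t ∧ κ t < κ y ∧ 0 < x t ∧ 0 < U μ R x t ∧
    U μ R x t ≤ R - 1 - y)).card ≤ (κ y - κ s) + 200 * 2 ^ 14 * (R - 1 - y) * Lg

/-- Z10an. As Z10at, with Z8n, Z9n. -/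
def GoalZ10an : Prop := ∀ (μ R N K b l Lg q βp βm s : ℕ) (W : ℤ) (L o k D S n κ x : ℕ → ℕ)
  (y : ℕ), Zon μ R N K b l Lg q βp βm s W L o k D S n κ x y →
  (∀ z, s ≤ z → z ≤ y → l * (κ y - κ z) ≤ 84 * (R - 1 - z) + 3 * K * l) ∧
  l * ((range y).filter (fun t => R - 1 - μ < t ∧ κ t < κ y ∧ 0 < x t ∧ 0 < U μ R x t ∧
    U μ R x t ≤ R - 1 - y)).card ≤ 84 * μ + 3 * K * l + 200 * 2 ^ 14 * l * (R - 1 - y) * Lg ∧
  l * Sd μ R κ x y ≤ (R - 1 - y) *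
    (l * (R - 1 - y) + 84 * μ + 3 * K * l + 200 * 2 ^ 14 * l * (R - 1 - y) * Lg)

/-- Z10bn. As Z10bt: `u (z+1) - u z ≥ βp + o z + oo z - (N - κ z + βm) ≥ (b l + w) / (2^14 l)`. -/
def GoalZ10bn : Prop := ∀ (μ R N K b l Lg q βp βm s : ℕ) (W : ℤ) (L o k D S n κ x : ℕ → ℕ)
  (y : ℕ), Zon μ R N K b l Lg q βp βm s W L o k D S n κ x y →
  R - 1 - μ < ac R κ x (κ y) ∧
  kk μ R κ x y * (b * l + (R - 1 - y)) ≤ 2 ^ 14 * l * (x y - na μ R y) ∧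
  x y - na μ R y < R - 1 - y

/-- Z10n. As Z10t. E3(2) for the exact row `y`, with `tot`:
`(βp - βm + o + oo - (N - κ y)) T w ≥ Dd + D - Sd - S + W - (w + 1 + kk) u`; the rest is unchanged. -/
def GoalZ10n : Prop := ∀ (μ R N K b l Lg q βp βm s : ℕ) (W : ℤ) (L o k D S n κ x : ℕ → ℕ)
  (y : ℕ), Zon μ R N K b l Lg q βp βm s W L o k D S n κ x y →
  b * l + (R - 1 - y) + 2 ^ 14 * l * (N - κ y + βm) ≤ 2 ^ 14 * l * (βp + o y + oo μ R κ x y)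

/-- Z11n (the last rows, too few conditions). As Z11. `βp - βm + o + oo - (N - κ) > 0` as there, so
`bb y' = lz y' + 1 + (N - 1 - κ) - oo - sk ≤ L y' + βp - βm + o ≤ L (y'+1)`. After `κ = N`: by H4(3)
`lz (y+1) + oo y + sk y = lz y`, and if `0 < lz y` then `oo y ≥ 1`, so `lz (y+1) ≤ lz y - 1` or `lz (y+1) = 0`, while
`L (y+1) ≥ L y - 1` (`inc`, `βm ≤ 1`): `lz ≤ L` is preserved. -/
def GoalZ11n : Prop := ∀ (μ R N K b βp βm s kq : ℕ) (W : ℤ) (L o k D S n κ x : ℕ → ℕ) (y : ℕ),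
  1 ≤ μ → μ + 2 ≤ R → βm ≤ 1 → Ext μ R N K b βp βm s W L o k D S n → Play μ R N κ x →
  Gr μ R N (s - 1) L κ x → Ex μ R N L κ x y → s ≤ y → y + 2 ≤ R →
  R - 1 - μ < ac R κ x (κ y) → kk μ R κ x y ≤ kq →
  ((R - 1 - y) * (2 ^ 24 * (Pn μ R x y + K + kq + 4 * (R - 1 - y) + 2) + (R - y) * b) : ℕ) <
    2 ^ 24 * W →
  ∀ z < R, lz μ R N κ x z ≤ L z

/-- Z12n (the last rows, too many conditions). As Z12, with `F z = (N - κ z) - (βp - βm) - o z - oo z` (integers). The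
only new point: if `κ r = N` with `bb (r-1) > L r` (row `r` is NA, `κ (r-1) = N - 1`) then still `F (r-1) ≤ 0`: in the row
`r - 1` `h ≥ 0`, so `3 μ ≤ L (r-1) ≤ lz (r-1) ≤ μ (oo (r-1) + 1)` (no unstarted point), `oo (r-1) ≥ 2`, and
`F (r-1) ≤ 1 + βm - oo (r-1) ≤ 0`. After `κ = N`: `lz ≤ L` is preserved (see Z11n). -/
def GoalZ12n : Prop := ∀ (μ R N K b βp βm s : ℕ) (W : ℤ) (L o k D S n κ x : ℕ → ℕ) (y : ℕ),
  1 ≤ μ → μ + 2 ≤ R → βm ≤ 1 → Ext μ R N K b βp βm s W L o k D S n → Play μ R N κ x →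
  Gr μ R N (s - 1) L κ x → Ex μ R N L κ x y → s ≤ y → y + 2 ≤ R →
  ((R - 1 - y) * (2 ^ 24 * (Pn μ R x y + K + 2 * (R - 1 - y)) + (R - y) * b) : ℕ) +
    2 ^ 24 * W < 0 →
  ∀ z < R, L z ≤ lz μ R N κ x z

/-- Z15n (the zone theorem). As Z15t, with Z10n, Z10an, Z10bn, Z11n, Z12n. In (3): if `κ` reaches `N` at a row `r` with
`lz r ≤ L r` after exact rows then `lz ≤ L` is preserved (see Z11n), and `N * T μ = ∑ lz ≤ ∑ L = N T μ + W`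
(`tot` at `y = R - 1`, where `T 0 = 0`, `D = S = 0` by `Dn`, `Sq`). In (2): `N - κ y + βm ≤ βp + o y + oo y`, so `bb y ≤ L (y+1)`. -/
def GoalZ15n : Prop := ∀ (μ R N K b l Lg q βp βm s w : ℕ) (W : ℤ) (L o k D S n κ x : ℕ → ℕ),
  Par4 μ R K b l Lg q → βm ≤ 1 → Ext μ R N K b βp βm s W L o k D S n → Play μ R N κ x →
  Gr μ R N (s - 1) L κ x → 1 ≤ s → Ex μ R N L κ x (s - 1) → bb μ R N κ x (s - 1) ≤ L s →
  Pau μ R s κ x → (∀ X ≤ μ, l * np μ R N κ x X ≤ 160 * X + 3 * l) → 1 ≤ w → s + 1 + w ≤ R →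
  4 * w ≤ μ →
  (∀ y, s ≤ y → y < R → w ≤ R - 1 - y → (R - 1 - y) ^ 2 * (b * l + (R - 1 - y)) ≤
    4096 * l * (Dd μ R κ x y + D y)) →
  2 ^ 26 * μ ≤ w * (b * l + w) → 2 ^ 14 * l * |W| ≤ ((w ^ 2 * (b * l + w) : ℕ) : ℤ) →
  ((w * (2 ^ 27 * μ + b * l * w) : ℕ) : ℤ) ≤ 2 ^ 20 * l * |W| →
  (0 ≤ W ∧ ∀ z < R, lz μ R N κ x z ≤ L z) ∨ (W ≤ 0 ∧ ∀ z < R, L z ≤ lz μ R N κ x z)

end Pool.Agent.Helper43.UN
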