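import Mathlib
import Pool.Agent.Helper43.UN.GoalsR
import Pool.Agent.Helper43.UN.GoalsZ

/-!
# Project UN: intermediate statements (packets), the game before the zone, the window theorem

Every packet: create `Pool/Agent/<You>/UN/<Name>.lean` with `theorem goalX : GoalX` (goals used are
hypotheses). Notation: `J = R - 1 - μ`, `w = R - 1 - y`, `v1 = 2 ^ q * v`, `g = κ τ`.
-/

set_option autoImplicit false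

namespace Pool.Agent.Helper43.UN

open Finset
open Pool.Agent.Lead.Sh
open Pool.Agent.Helper43.Hw (T na va lz Play aa ac sc oo sk U Dd Sd Pn nx bb np)
open Pool.Agent.Helper43.Gm (Pri)
open Pool.Agent.Helper18.EW (Gr Ex Pau)
open Pool.Agent.Helper18.UW (Par4 UGrp uV uO uK uD uS uN UPlay UPre uz uo Vh mu OkU)

/-- E8an (the rest `Γ t = ℓ t - lz t`, rows `τ ≤ t ≤ J`). As E8av (`Pool/Agent/Helper34/UW/E8av.lean`). For `τ ≤ t < J`: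
`lz (t+1) + oo t + sk t = lz t`, so `Γ (t+1) = Γ t + (ℓ (t+1) - ℓ t) + oo t + sk t` with `ℓ (t+1) - ℓ t ∈ [-1, 9]` (`i0`). Upper bound:
less than `v1` rows, `10 μ oo τ ≤ 42 A + 10 μ`, `l A ≤ 32 μ²`, `∑ sk ≤ μ`: `Γ J ≤ 2 μ + v1 (10 + 4.2 A / μ) ≤ 0.15 b μ`. Growth:
`μ oo t ≥ lz t = ℓ t - Γ t ≥ 0.9 A - 0.15 b μ`, so `l oo t ≥ 3.6 μ - 0.15 b l ≥ 3.5 μ` (`lo`), and
`16 l (Γ (t+1) - Γ t) ≥ 16 l (oo t - 1) ≥ μ`. -/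
def GoalE8an : Prop := ∀ (μ δ R A N K b l Lg q v τ βp βm : ℕ) (S W : ℤ) (ℓ κ x : ℕ → ℕ),
  Vp μ δ R A N K b l Lg q v τ βp βm S W ℓ κ x →
  (∀ t, τ ≤ t → t + 1 + μ ≤ R → lz μ R N κ x t ≤ ℓ t ∧
    20 * (ℓ t - lz μ R N κ x t) ≤ 3 * b * μ) ∧
  (∀ t, τ ≤ t → t + 2 + μ ≤ R →
    μ + 16 * l * (ℓ t - lz μ R N κ x t) ≤ 16 * l * (ℓ (t + 1) - lz μ R N κ x (t + 1)))

/-- E8bn (the same for the rows `J ≤ t < J + μ / 4000`). As E8bv (`Pool/Agent/Helper87/UW/E8bv.lean`), `β = βp - βm` (integer). At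
`J`: `Dd + (N - g) T μ + ∑_{z<J} lz z + (μ+1) lz J ≤ Sd + oo T μ + N T μ`. Let `V = ∑_{J < z < R} (ℓ z - ℓ J - β (z - J)) ≥ 0`; by `i1`, `i2`
every term is `≤ (N - g) δ`, `l V ≤ 140 μ² δ`. `∑_{z<J} ℓ z + (μ+1) ℓ J + β T μ + V = ∑_{z<R} ℓ z = N T μ + S + W`. So
`(β + oo J - (N - g)) T μ ≥ Dd J - Sd J + W - V`, and `5 l (β + oo J - (N - g)) ≥ μ` as there. For `t ≥ J`:
`Γ (t+1) - Γ t ≥ β + oo t + sk t - (N - g)`. Third: for `J ≤ t < J + δ` the growth is at most `9 + oo τ + sk t`. -/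
def GoalE8bn : Prop := ∀ (μ δ R A N K b l Lg q v τ βp βm : ℕ) (S W : ℤ) (ℓ κ x : ℕ → ℕ),
  Vp μ δ R A N K b l Lg q v τ βp βm S W ℓ κ x → (b : ℤ) * μ ^ 2 ≤ 3 * S →
  2 ^ 10 * l * |W| ≤ (μ : ℤ) ^ 3 →
  (∀ t, R ≤ t + 1 + μ → t < R - 1 - μ + μ / 4000 →
    μ + 16 * l * ℓ t + 16 * l * lz μ R N κ x (t + 1) ≤
      16 * l * ℓ (t + 1) + 16 * l * lz μ R N κ x t) ∧
  (∀ t, R ≤ t + 1 + μ → t ≤ R - 1 - μ + μ / 4000 → lz μ R N κ x t ≤ ℓ t) ∧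
  (∀ t, R ≤ t + 1 + μ → t + 1 + μ ≤ R + δ → 4 * (ℓ t - lz μ R N κ x t) ≤ b * μ)

/-- E13n (the special points satisfy `Ext`), `L = ℓ - uV`. As E13v (UW; `Pool/Agent/Helper19/UW/E13v.lean`). `tot`:
`∑_{z<y} ℓ z + (R - y) ℓ y + βp T w = ∑_{z<R} ℓ z + βm T w` for `y ≥ s`. `big`: `ℓ y - uV y ≥ 0.9 A - K μ ≥ 3 μ`:
`l A ≥ 4 μ²`, `2^33 K l ≤ μ`, `2^75 l ≤ μ` (see `par4_facts` in `Pool/Agent/Helper18/UW/GameV.lean`). -/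
def GoalE13n : Prop := ∀ (μ δ R A N K b l Lg q τ s E βp βm : ℕ) (ℓ ms e P : ℕ → ℕ) (W : ℤ),
  1 ≤ μ → Par4 μ R K b l Lg q → UGrp μ δ R K τ s E ms e P → 4 * μ ^ 2 ≤ l * A →
  (∀ y, s ≤ y → y < R → 9 * A ≤ 10 * ℓ y) →
  (∀ y, s ≤ y → y + 1 < R → ℓ (y + 1) + βm = ℓ y + βp) →
  (∑ z ∈ range R, (ℓ z : ℤ) = N * T μ + ∑ i ∈ range K, (T (ms i) : ℤ) + W) →
  (∀ z < R, uV R K τ s ms e P z ≤ ℓ z) →
  (∀ t, τ ≤ t → t + 1 < s → μ + 16 * l * ∑ i ∈ range K, (ms i - P t / e i) ≤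
    16 * l * ∑ i ∈ range K, (ms i - P (t + 1) / e i)) →
  Ext μ R N K b βp βm s W (fun z => ℓ z - uV R K τ s ms e P z) (uO R K τ s ms e P)
    (uK K τ s ms e P) (uD R K τ s ms e P) (uS R K τ s ms e P) (uN R K τ s ms e P)

/-- GameVn (the game theorem for the virtual play). Proof: copy `Pool/Agent/Helper18/UW/GameV.lean` (theorem `goalGameV`, 300
lines) with E8an, E8bn, E13n, Z15n instead of E8av, E8bv, E13v, Z15t; the other hypotheses are the same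
(`Hw.GoalH1`, `UW.GoalGE4`, `UW.GoalUG`, `EW.GoalE12`, `UW.GoalE14v`, `UW.GoalXf`, all proved). -/
def GoalGameVn : Prop := ∀ (μ δ R A N K b l Lg q v τ w βp βm : ℕ) (W : ℤ)
  (ms ℓ κ2 x2 : ℕ → ℕ),
  Vp μ δ R A N K b l Lg q v τ βp βm (∑ i ∈ range K, (T (ms i) : ℤ)) W ℓ κ2 x2 →
  (∀ i < K, μ ≤ ms i + δ ∧ ms i ≤ μ) → 2 * v < w → 4 * w ≤ μ →
  2 ^ 26 * μ ≤ w * (b * l + w) → 2 ^ 14 * l * |W| ≤ ((w ^ 2 * (b * l + w) : ℕ) : ℤ) →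
  ((w * (2 ^ 27 * μ + b * l * w) : ℕ) : ℤ) ≤ 2 ^ 20 * l * |W| →
  ∃ (κ x e P : ℕ → ℕ) (s E : ℕ), Play μ R N κ x ∧ UGrp μ δ R K τ s E ms e P ∧
    (∀ y < s, κ y = κ2 y ∧ x y = x2 y) ∧
    ((0 ≤ W ∧ ∀ z < R, lz μ R N κ x z + uV R K τ s ms e P z ≤ ℓ z) ∨
      (W ≤ 0 ∧ ∀ z < R, ℓ z ≤ lz μ R N κ x z + uV R K τ s ms e P z))

/-- the conclusion of TrN -/
def TrNc : Prop := ∀ (D : Finset (ℕ × ℕ)) (m ms : ℕ → ℕ) (μ δ R N K τ s E : ℕ)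
  (ℓ κ x e P : ℕ → ℕ), Rg D R ℓ → 2 ≤ R →
  (∀ c < N, 1 ≤ m c ∧ m c + 2 ≤ R) → UPlay m R N κ x → UGrp μ δ R K τ s E ms e P →
  (∀ t, τ ≤ t → t < s → κ t = κ τ ∧ x t = na (m (κ τ)) R t) → κ (τ - 1) < κ τ → κ τ < N →
  ((∀ z < R, ℓ z ≤ uz m R N κ x z + uV R K τ s ms e P z) →
    Inj D (rows (mu m ms N) (range (N + K)))) ∧
  ((∀ z < R, uz m R N κ x z + uV R K τ s ms e P z ≤ ℓ z) →
    Ind D (rows (mu m ms N) (range (N + K))))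

/-- TrN (from the game to the region). As TriU (`GoalTriU`, proof in the imports of UW), with any region `D` with
`ℓ (R - 1 - j)` cells in the row `j` instead of `triZ d h`. -/
def GoalTrN : Prop := Pool.Agent.Helper18.SG.GoalA2 → Pool.Agent.Helper18.UW.GoalPGu →
  Pool.Agent.Helper18.UW.GoalU1 → Pool.Agent.Helper18.UW.GoalUG → TrNc

/-- the window theorem for a region `D` and a set `A0` of points, `Hg ⊆ A0` the huge ones -/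
def WGc : Prop := ∀ (D : Finset (ℕ × ℕ)) (ℓ : ℕ → ℕ) (A0 Hg : Finset ℕ) (m : ℕ → ℕ)
  (M Mb μ δ Lg R A E0 βp βm W : ℕ),
  Pf M Mb R A E0 ℓ → βp ≤ 9 → βm ≤ 1 →
  (∀ y, R ≤ y + 1 + M → y + 1 < R → ℓ (y + 1) + βm = ℓ y + βp) → Rg D R ℓ →
  Hg ⊆ A0 → (∀ k ∈ Hg, 1 ≤ m k ∧ m k ≤ Mb) → (∀ k ∈ A0, k ∉ Hg → 1 ≤ m k ∧ m k ≤ M) →
  μ ≤ M → 128 * μ ≤ 2 ^ Lg → 2 ^ 120 * Lg ^ 3 * M ≤ A → A ≤ 28 * μ ^ 2 →
  2 ^ 60 * Lg ^ 2 * δ ≤ μ →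
  ∑ k ∈ Hg, (m k + 1).choose 2 < ∑ z ∈ range (R - E0 - 2 * Mb), ℓ z →
  |(D.card : ℤ) - ∑ k ∈ A0, ((m k + 1).choose 2 : ℤ)| = W → W ≤ 2 * A →
  2 ^ 80 * Lg ^ 2 * A ≤ μ * W →
  62 * M * (A + 1) ≤
    ∑ k ∈ (A0 \ Hg).filter (fun k => μ ≤ m k + δ ∧ m k ≤ μ), (m k + 1).choose 2 →
  OkU D m A0

/-- FUn (the window theorem). Proof: copy `Pool/Agent/Helper18/UW/FU.lean` (theorem `goalFU`) with RLn, R2n, VAn, GameVn, TrNc instead of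
RL, R2, VA, GameV, TriUc; `UW.GoalNU` is applied with `A` in place of its `R` (it gives `Par4 μ A …`, and `Par4 μ R …` as
`100 μ ≤ 100 M ≤ R`); `Cl` is the cluster in `A0 \ Hg`; `∑_z ℓ z = D.card` (`Rg`, `card_eq_sum_card_fiberwise`,
`sum_range_reflect`). `Sg.Zs`: `∑ T (ms i) ≤ K μ²`, `2^35 K μ ≤ A` (NU), `|W| ≤ 2 A`, `16 ≤ μ`. `Sg.pa`: the first `N0` points have the area
`t(A0) - t(Cl) ≤ D.card + 2 A - 62 M (A + 1)`, and `∑_{z<R} ℓ z ≤ ∑_{z<R-60M} ℓ z + 60 M A`. -/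
def GoalFUn : Prop := GoalRLn → Pool.Agent.Helper18.UW.GoalNU → Pool.Agent.Helper18.UW.GoalUG →
  GoalR2n → GoalVAn → GoalGameVn → Pool.Agent.Helper18.UW.GoalBT → TrNc → WGc

end Pool.Agent.Helper43.UN
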