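import Mathlib
import Pool.Agent.Helper43.UN.GoalsG
import Pool.Agent.Helper18.UW.GoalsA

/-!
# Project UN: intermediate statements (packets), gluing at a corner triangle, Case I

Every packet: create `Pool/Agent/<You>/UN/<Name>.lean` with `theorem goalX : GoalX` (goals used are
hypotheses). `T_k = C(k + 1, 2)`; `(triD 0 e).card = T_(e+1)` (`card_triD`); `t(S) = ∑_{k ∈ S} C(m k + 1, 2)`, which is
`(rows m S).card` (`card_rows`).
-/

set_option autoImplicit false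

namespace Pool.Agent.Helper43.UN

open Finset
open Pool.Agent.Lead.Sh
open Pool.Agent.Helper43.Ah (rowsD)
open Pool.Agent.Helper18.EW (GoalCP GoalWr GoalSw GoalInv GoalGT GoalF1Z)
open Pool.Agent.Helper18.UW (lg OkU FUc SELc)

/-- GNa (joining along the diagonal `i + j = e`). Take the matrix with the entries `ε^(e - i - j) E` for the rows `r ∈ R1` and
`ε^(i + j - e) E` for the rows `r ∈ R2` (natural subtractions, `E = E r.2 d (P1 r.1)`, resp. `(P2 r.1)`, `d = (i, j) ∈ D`). At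
`ε = 0` the rows of `R1` become the sums over `e ≤ i + j`, those of `R2` the sums over `i + j ≤ e`, so the matrix is injective by
hypothesis, and `poly_inj` (`Pool/Agent/Lead/ShBasic.lean`) gives `ε ≠ 0` for which it is injective. For this `ε` put
`c' d = ε^(i + j - e) c d`: the rows of `R2` say that `c'` satisfies the conditions at `P2`, the rows of `R1` (`e - (i+j)` and `i + j - e`
differ by the integer `e - (i+j)`) that `∑ c' d ε^(-(i+j)) E o d x y = 0`, which is by `E_scale` (with `ε⁻¹`, `w = (1,1)`) the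
condition `∑ c' d E o d (x/ε) (y/ε) = 0` up to a nonzero factor. So the positions are `P2 k`, and `P1 k` divided by `ε` for the
points `k` of `R1` (compare the proof of `Inj.glue` there). -/
def GoalGNa : Prop := ∀ (D : Finset (ℕ × ℕ)) (R1 R2 : Finset Row) (e : ℕ) (P1 P2 : ℕ → ℂ × ℂ),
  (∀ r1 ∈ R1, ∀ r2 ∈ R2, r1.1 ≠ r2.1) →
  (∀ c : ℕ × ℕ → ℂ,
    (∀ r ∈ R1, ∑ d ∈ D.filter (fun x => e ≤ x.1 + x.2),
      c d * E r.2 d (P1 r.1).1 (P1 r.1).2 = 0) →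
    (∀ r ∈ R2, ∑ d ∈ D.filter (fun x => x.1 + x.2 ≤ e),
      c d * E r.2 d (P2 r.1).1 (P2 r.1).2 = 0) →
    ∀ d ∈ D, c d = 0) →
  Inj D (R1 ∪ R2)

/-- GNb (transversality). Let `k = e + 1 - w`, `t` from Wr: `f ∈ V`, `(X - t)^k ∣ f` imply `f = 0`. Let `Φ` be a linear map from the
polynomials of degree `≤ e` to some `ℂ^r` with the kernel `V ∩ (degree ≤ e)` (the quotient map in a basis). By hypothesis
`g i = X^i + ∑_{j ≤ e - w} γ_ij X^j` for `e - w < i ≤ e`, so `ε^i g_i((X - t)/ε) = (X - t)^i + ∑_j γ_ij ε^(i-j) (X - t)^j` with `j < i`. The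
matrix with the columns `Φ(ε^i g_i((X - t)/ε))` has polynomial entries in `ε`, and at `ε = 0` it is injective: `∑ a_i (X - t)^i ∈ V`
is divisible by `(X - t)^k` (`i ≥ k`), so it is `0`, and `a = 0`. `poly_inj` gives `ε ≠ 0`; for it
`∑ a_i g_i((X - t)/ε) ∈ V` implies `a_i ε^(-i) = 0`. (`w = 0`: nothing to prove.) -/
def GoalGNb : Prop := GoalWr → ∀ (e w : ℕ) (V : Submodule ℂ (Polynomial ℂ))
  (g : ℕ → Polynomial ℂ), Module.Finite ℂ V → Module.finrank ℂ V + w ≤ e + 1 →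
  (∀ i, e < i + w → i ≤ e → ∀ j, e < j + w → (g i).coeff j = if j = i then 1 else 0) →
  ∃ t ε : ℂ, ε ≠ 0 ∧ ∀ a : ℕ → ℂ,
    (∑ i ∈ (range (e + 1)).filter (fun i => e < i + w), Polynomial.C (a i) *
      (g i).comp (Polynomial.C ε⁻¹ * (Polynomial.X - Polynomial.C t))) ∈ V →
    ∀ i, e < i + w → i ≤ e → a i = 0

/-- GNs (shear). `c'` are the coefficients of `f(ε x + t y, y)`, `f = ∑ c x^i y^j`:
`c' (a, b) = ∑_{a ≤ i ≤ a + b} c (i, a + b - i) C(i, a) ε^a t^(i-a)`. For all `U`, `V` in `MvPolynomial (Fin 2) ℂ`: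
`f(ε (x + U) + t (y + V), y + V) = ∑_o (∑_d c d E o d (ε x + t y) y) (ε U + t V)^(o.1) V^(o.2)`; the terms with `o.1 + o.2 < m`
vanish by hypothesis, the other ones have no terms of total degree `< m`; the coefficient of `U^a V^b` is `∑ c' E (a,b) d x y`
(compare `inv_cond` in `Pool/Agent/Helper39/EW/Inv.lean`). Last part: `f(x, y) = f'((x - t y)/ε, y)`, or: for `i + j = n` fixed the
map `c ↦ c'` is triangular with the diagonal entries `ε^a ≠ 0`. -/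
def GoalGNs : Prop := ∀ (m : ℕ → ℕ) (e : ℕ) (s : Finset ℕ) (t ε : ℂ) (P : ℕ → ℂ × ℂ)
  (c : ℕ × ℕ → ℂ), ε ≠ 0 →
  (∀ r ∈ rows m s, ∑ d ∈ triD 0 e,
    c d * E r.2 d (ε * (P r.1).1 + t * (P r.1).2) (P r.1).2 = 0) →
  ∃ c' : ℕ × ℕ → ℂ,
    (∀ r ∈ rows m s, ∑ d ∈ triD 0 e, c' d * E r.2 d (P r.1).1 (P r.1).2 = 0) ∧
    (∑ i ∈ range (e + 1), Polynomial.C (c' (i, e - i)) * Polynomial.X ^ i =
      (∑ i ∈ range (e + 1), Polynomial.C (c (i, e - i)) * Polynomial.X ^ i).comp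
        (Polynomial.C ε * Polynomial.X + Polynomial.C t)) ∧
    ((∀ d ∈ triD 0 e, c' d = 0) → ∀ d ∈ triD 0 e, c d = 0)

/-- the conclusion of GNt -/
def GNtc : Prop := ∀ (m : ℕ → ℕ) (e : ℕ) (t : Finset ℕ) (V : Submodule ℂ (Polynomial ℂ)), 1 ≤ e →
  Ind (triD 0 e) (rows m t) → Inj (triD 0 (e - 1)) (rows m t) → Module.Finite ℂ V →
  Module.finrank ℂ V + (triD 0 e).card ≤ e + 1 + (rows m t).card →
  ∃ P : ℕ → ℂ × ℂ, ∀ c : ℕ × ℕ → ℂ,
    (∀ r ∈ rows m t, ∑ d ∈ triD 0 e, c d * E r.2 d (P r.1).1 (P r.1).2 = 0) →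
    (∑ i ∈ range (e + 1), Polynomial.C (c (i, e - i)) * Polynomial.X ^ i) ∈ V →
    ∀ d ∈ triD 0 e, c d = 0

/-- GNt (the triangle side). Let `w = (triD 0 e).card - (rows m t).card` (`≥ 0` by `Ind`, `ind_card` in
`Pool/Agent/Helper85/EW/GL.lean`; `≤ e + 1` by `Inj`). As for the points `s` in the proof of GL (`hA6` there) and Sw:
`Inj A (rows m t)`, `A = {i + j < e} ∪ {i + j = e, i + w ≤ e}` (GL gives `w ≤ i` instead, exchange the coordinates). Let `P` be the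
positions. The kernel `K` of the conditions on `triD 0 e` at `P` has dimension `≥ w` (number of unknowns minus number of
equations), and the map `K → ℂ^w`, `c ↦ (c (i, e - i))_{e < i + w, i ≤ e}` is injective (`InjAt A`), so it is bijective: for every
`i0` with `e < i0 + w`, `i0 ≤ e` there is `c_i0 ∈ K` with `c_i0 (i, e - i) = δ_{i i0}` for `e < i + w`; `g i0` = its diagonal polynomial
`∑_i c_i0 (i, e-i) X^i`. GNb gives `t0`, `ε`. Positions: `P' k = (ε x_k + t0 y_k, y_k)`. If `c` satisfies the conditions at `P'` and its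
diagonal polynomial `G` is in `V`: GNs gives `c' ∈ K`, `c' = ∑ a_i c_i` (same coordinates, injectivity), so
`G(ε X + t0) = ∑ a_i g_i`, `G = ∑ a_i g_i((X - t0)/ε) ∈ V`, hence `a = 0`, `c' = 0` on `triD 0 e`, `c = 0`. -/
def GoalGNt : Prop := GoalCP → GoalWr → GoalSw → GoalInv → GoalGT → GoalGNb → GoalGNs → GNtc

/-- the conclusion of GN: gluing at a corner triangle -/
def GNc : Prop := ∀ (m : ℕ → ℕ) (D : Finset (ℕ × ℕ)) (e : ℕ) (s t : Finset ℕ), 1 ≤ e →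
  triD 0 e ⊆ D → Disjoint s t →
  Ind (triD 0 e) (rows m t) → Inj (triD 0 (e - 1)) (rows m t) →
  Ind (D.filter (fun x => e ≤ x.1 + x.2)) (rows m s) →
  Inj (D.filter (fun x => e + 1 ≤ x.1 + x.2)) (rows m s) →
  D.card ≤ (rows m (s ∪ t)).card → Inj D (rows m (s ∪ t))

/-- GN. CP gives `P1` with `IndAt (D.filter (e ≤ …)) (rows m s) P1` and `InjAt (D.filter (e + 1 ≤ …)) (rows m s) P1`. `K` = the space of
the `c` supported on `D.filter (e ≤ …)` satisfying the conditions at `P1`; `dim K = (D.filter (e ≤ …)).card - (rows m s).card`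
(`ker_dim` in `Pool/Agent/Helper2/EW/GT.lean`); `V` = the space of the diagonal polynomials `∑_{i ≤ e} c (i, e - i) X^i`, `c ∈ K`.
Count: `(triD 0 e).card + (D.filter (e ≤ …)).card = D.card + e + 1` (`triD 0 e ⊆ D`) and
`(rows m (s ∪ t)).card ≤ (rows m s).card + (rows m t).card`, so `finrank V + (triD 0 e).card ≤ e + 1 + (rows m t).card`. GNt gives `P2`. GNa with
`R1 = rows m s`, `R2 = rows m t` (`rows_union`; `D.filter (i + j ≤ e) = triD 0 e`): let `c` satisfy both conditions; the diagonal polynomial of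
`c` is in `V`, so `c = 0` on `triD 0 e`; then the conditions at `P1` are those on `D.filter (e + 1 ≤ …)`, so `c = 0` there. -/
def GoalGN : Prop := GoalCP → GoalGNa → GNtc → GNc

/-- Pfn (the profiles of the shapes, also after the removal of the cells with `i + j < e`). `ℓ y = lc lam e (R - 1 - y)`,
`j = R - 1 - y`. `lam j ≥ A - 9 j` as long as `950 j ≤ A`, `950 j ≤ R` (`nine`), in particular for `j ≤ e + 60 M + 1` (`e ≤ A / 1050`,
`e ≤ R / 1050`; `M` is tiny compared with `A`, `R` by `hA`, `hR`), where `lc lam e j ≥ A - 10 e - 550 M ≥ 99 A / 100`. `up`: if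
`e ≤ j` nothing is removed from the rows `j`, `j + 1`: `anti`, `str`; the rows `y` with `j + 1 < e + 60 M` satisfy the third
alternative (`lam (j+1) ≤ lam j`, `e - j ≤ e - (j+1) + 1`). `nine`: `lam j ≤ lam (j+1) + 9`. Slopes: for `j < M`,
`lam j = lam (j+1) + β`, and `e - j = e - (j+1) + 1` if `M ≤ e`. Cells: the row `j` of `rowsD R lam` consists of the `(i, j)` with
`i < lam j`, and `e - j ≤ lam j` (`j < e`), so `lc lam e j` of them have `e ≤ i + j`; `T_e = ∑_{j < e} (e - j)` are removed.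
`triD 0 e ⊆ rowsD R lam`: `i + j ≤ e` gives `i ≤ e < lam j`. Fifth: the rows `j < e + 60 M + 2 Mb` (`y ≥ R - (e + 60 M) - 2 Mb`) have at most
`(R / 1050 + 60 M + R / 8) A ≤ (1/7) R A ≤ (5/7) card` cells (`area`; `∑ lam = card`); in the other rows `ℓ = lam`, and they have at
least `(2/7) card > card / 8 ≥ t` cells. -/
def GoalPfn : Prop := ∀ (M Mb R A β e bm : ℕ) (lam : ℕ → ℕ), Sh M Mb R A β lam →
  1050 * e ≤ A → 1050 * e ≤ R → ((e = 0 ∧ bm = 0) ∨ (M ≤ e ∧ bm = 1)) →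
  Pf M Mb R A (e + 60 * M) (fun y => lc lam e (R - 1 - y)) ∧
  (∀ y, R ≤ y + 1 + M → y + 1 < R →
    lc lam e (R - 1 - (y + 1)) + bm = lc lam e (R - 1 - y) + β) ∧
  Rg ((rowsD R lam).filter (fun x => e ≤ x.1 + x.2)) R (fun y => lc lam e (R - 1 - y)) ∧
  ((rowsD R lam).filter (fun x => e ≤ x.1 + x.2)).card + (e + 1).choose 2 =
    (rowsD R lam).card ∧
  (∀ t, 8 * t ≤ (rowsD R lam).card →
    t < ∑ z ∈ range (R - (e + 60 * M) - 2 * Mb), lc lam e (R - 1 - z)) ∧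
  triD 0 e ⊆ rowsD R lam

/-- Case I: a narrow cluster of multiplicities has a large area -/
def CaseIn : Prop := ∀ (A0 Hg : Finset ℕ) (m : ℕ → ℕ) (M Mb R A β μ δ : ℕ) (lam : ℕ → ℕ),
  Sh M Mb R A β lam → Hg ⊆ A0 → (∀ k ∈ Hg, 1 ≤ m k ∧ m k ≤ Mb) →
  (∀ k ∈ A0, k ∉ Hg → 1 ≤ m k ∧ m k ≤ M) →
  8 * ∑ k ∈ Hg, (m k + 1).choose 2 ≤ (rowsD R lam).card →
  (rowsD R lam).card ≤ ∑ k ∈ A0, (m k + 1).choose 2 →
  ∑ k ∈ A0, (m k + 1).choose 2 ≤ (rowsD R lam).card + M →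
  μ ≤ M → A < 28 * μ ^ 2 → 2 ^ 60 * lg M ^ 2 * δ ≤ μ →
  1000 * M * (A + 1) ≤
    ∑ k ∈ (A0 \ Hg).filter (fun k => μ ≤ m k + δ ∧ m k ≤ μ), (m k + 1).choose 2 →
  Inj (rowsD R lam) (rows m A0)

/-- CIn (Case I). As CI (`Pool/Agent/Helper93/UW/CI.lean`). `L = lg M`, so `128 μ ≤ 2^L`. `D = rowsD R lam`, `Cl ⊆ A0 \ Hg` the cluster,
`exc = t(A0) - D.card ∈ [0, M]`, `W1 = (2^80 L² (A+1)) / μ + 1` (natural division), so `2^80 L² (A+1) ≤ μ W1`. If `W1 ≤ exc`: Pfn with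
`e = 0` (`D.filter (0 ≤ …) = D`), WGc with `βp = β`, `βm = 0`, `W = exc ≤ M ≤ 2 A`, second alternative of OkU. Let `exc < W1`,
`W0 = 2 W1 + 2`, `D0 = min A R / 1100` (natural division); `A ≤ 2^8 R` gives `A ≤ 281600 (D0 + 1) < 1.08 * 2^18 (D0 + 1)`, and
`2^380 L³ M ≤ D0`. By `subtotal` (Helper43/Ah/Good.lean) choose disjoint `CA`, `CB ⊆ Cl` with `62 M (A+1) ≤ t(CA), t(CB) ≤ 62 M (A+1) + M²`,
then `F ⊆ Cl \ (CA ∪ CB)` with `F.card = (7 D0) / μ + 1` (possible: the rest of `Cl` has area `≥ 870 M (A+1)`, every point at most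
`μ²`; `t(F) ≤ 8 M (A + 1)`), and `U ⊆ A0 \ Hg` disjoint from `CA`, `CB`, `F` with `D0² ≤ 2 t(U) ≤ D0² + 2 M²` (`t(A0 \ Hg) ≥ 7/8 D.card ≥ 7/40 A R`,
`D0² ≤ A R / 1100²`). `A1 = CA ∪ U`, `s1 = Nat.sqrt (2 t(A1))`: `D0 ≤ s1 ≤ D0 + D0 / 1000` (`M (A + 1)` is tiny compared with `D0²`). SELc with `A1`, `F`
(`10 s1 ≤ μ²` as `s1 ≤ A / 1098`, `A < 28 μ²`; `μ W0 ≤ 2^81 L² (A + 1) + 4 μ ≤ 2^100 L² s1`; `6 s1 ≤ 7 D0 ≤ μ F.card`) gives `J`, `s`;
`A2 = A1 ∪ J`, `B = A0 \ A2` (contains `Hg`, `CB`); `0.99 D0 ≤ s ≤ 1.01 D0`, so `1050 s ≤ A`, `1050 s ≤ R`, `M ≤ s - 1`. Let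
`wA = T_s - t(A2) ≥ W0`; `t(A2) - T_(s-1) = s - wA ≥ W0`. GNc with `e := s - 1`, `s := B`, `t := A2`. Its hypotheses: FUc (`triZ e (e+1) = triD 0 e`,
`h = s`, resp. `s - 1`; `2^120 L³ M ≤ h ≤ 28 μ²`; cluster `CA`): `triD 0 (s-1)`: `T_s - t(A2) = wA`, `Ind`; `triD 0 (s-2)`: `t(A2) - T_(s-1) = s - wA`,
`Inj`. WGc for the set `B`, with Pfn, `βp = β`, `βm = 1`, cluster `CB` (`62 M (A+1)`), all the `W` are `≤ 2 A`: `e = s - 1`: card `- t(B) =
(s - wA) - exc ≥ W1`, `Ind`; `e = s`: `t(B) -` card `= wA + exc ≥ W0`, `Inj`. -/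
def GoalCIn : Prop := GoalPfn → WGc → FUc → SELc → GNc → GoalF1Z → CaseIn

end Pool.Agent.Helper43.UN
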