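import Mathlib
import Pool.Agent.Helper43.UN.GoalsF
import Pool.Agent.Helper18.SG.Goals2
import Pool.Agent.Helper18.Np.Cases

/-!
# Project UN: intermediate statements (packets), Case II, the core, the shapes, the end

Every packet: create `Pool/Agent/<You>/UN/<Name>.lean` with `theorem goalX : GoalX` (goals used are
hypotheses). `T_k = C(k + 1, 2)`, `t(S) = ∑_{k ∈ S} C(m k + 1, 2)`. All subtractions are subtractions of natural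
numbers.
-/

set_option autoImplicit false

namespace Pool.Agent.Helper43.UN

open Finset
open Pool.Agent.Lead.Sh
open Pool.Agent.Helper43.Ah (rowsD)
open Pool.Agent.Helper43.Gm (Pri)
open Pool.Agent.Helper43.Hw (aa)
open Pool.Agent.Helper18.EW (GoalPA GoalCP GoalSw)
open Pool.Agent.Helper18.UW (lg OkU UPlay UPre uz GoalU1 GoalPig)
open Pool.Agent.Helper18.SG (HypW GoalGW GoalA2 GoalT1 GoalT1a blk)
open Helper18.Cusp (Red rr kap GoodFor Concl tr)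

/-- RL2n (renumbering). Enumerate `Hg`, then `Bg`, then the rest with decreasing multiplicities, and put `m' c = 1` for
`c ≥ N`. As RL (`Pool/Agent/Helper55/UW/RL.lean`), or `SG.GoalF0` (proved) for the last part. -/
def GoalRL2n : Prop := ∀ (A0 Hg Bg : Finset ℕ) (m : ℕ → ℕ), Hg ⊆ A0 → Bg ⊆ A0 →
  Disjoint Hg Bg → (∀ k ∈ A0, 1 ≤ m k) →
  ∃ (m' : ℕ → ℕ) (N00 N0 N : ℕ), N00 ≤ N0 ∧ N0 ≤ N ∧
    (∀ c < N00, ∃ k ∈ Hg, m' c = m k) ∧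
    (∀ c, N00 ≤ c → c < N0 → ∃ k ∈ Bg, m' c = m k) ∧
    (∀ c, N0 ≤ c → c < N → ∃ k ∈ A0, k ∉ Hg ∧ k ∉ Bg ∧ m' c = m k) ∧
    (∀ c, N ≤ c → m' c = 1) ∧
    (∀ c c', N0 ≤ c → c ≤ c' → m' c' ≤ m' c) ∧
    (∑ c ∈ range N00, (m' c + 1).choose 2 = ∑ k ∈ Hg, (m k + 1).choose 2) ∧
    (∑ c ∈ range N0, (m' c + 1).choose 2 =
      ∑ k ∈ Hg, (m k + 1).choose 2 + ∑ k ∈ Bg, (m k + 1).choose 2) ∧
    (∑ c ∈ range N, (m' c + 1).choose 2 = ∑ k ∈ A0, (m k + 1).choose 2) ∧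
    ∀ D : Finset (ℕ × ℕ), Inj D (rows m' (range N)) → Inj D (rows m A0)

/-- UCn (the points which have started before the row `Y` become old at `Y`). `F y = uz m R g κ' x' y`. `κ' , x'` is a play
(compare UC, `Pool/Agent/Helper12/UW/UC.lean`): the rows `< Y` are old ones, the point `g - 1` becomes old at `Y` if it was moving
at `Y - 1`; `x' y = na (m g) R y` for `y ≥ Y`, `UPre.nat`. Points `c ≥ g` give `0` to the rows `< Y` (`κ y < c`: `na = 0` by `UPre.nat`;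
`κ y = c`: `x y = 0`), so the loads of the rows `< Y` are those of the points `c < g`. Total: U1.8 for every `c < g`. For `y ≥ Y`
all `c < g` are old, and `0 < va c y` implies `y < ac c + m c` (U1.6), `ac c ≤ Y - 1`, and `m c ≤ μ`: if `μ < m c` then `c` is old at a row `y0`
with `y0 + m c < Y`, so it is dead at `Y - 1`. Hence `F y = 0` for `y ≥ Y + μ`; `va c y ≤ μ`, and `va c (y+1) + 1 ≤ va c y` if
`0 < va c y` (U1.7), so `F y ≤ μ (F y - F (y+1))`. Last: let `k = κ (Y - 1)`, `f` the number of `c < k` with `0 < va c (Y-1)`. If `x (Y-1) = 0`: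
`g = k`, `F Y + f ≤ ∑_{c<k} va c (Y-1) = uz (Y-1) ≤ μ f`. If `0 < x (Y-1)`: `g = k + 1`, `va k Y = m k ≤ μ` (it was alive at `Y - 1`), and
`F Y ≤ uz (Y-1) - x (Y-1) - f + μ`, `uz (Y-1) ≤ μ f + x (Y-1)`; multiply by `μ`. -/
def GoalUCn : Prop := GoalU1 → ∀ (m : ℕ → ℕ) (μ R Y N g : ℕ) (κ x κ' x' : ℕ → ℕ),
  1 ≤ μ → 1 ≤ Y → Y + μ + 2 ≤ R → (∀ c < N, 1 ≤ m c ∧ m c + 2 ≤ R) → UPre m R N Y κ x →
  κ Y < N → (∀ c < N, μ < m c → ∃ y, y + m c + 1 ≤ Y ∧ c < κ y) →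
  g = aa κ x (Y - 1) → κ' = ck Y g κ → x' = cx m R N Y g x →
  κ (Y - 1) ≤ g ∧ g ≤ N ∧ UPlay m R N κ' x' ∧
  (∀ y < Y, κ' y ≤ g ∧ (κ' y = g → x' y = 0)) ∧ (∀ y, Y ≤ y → κ' y = g) ∧
  (∀ y < Y, uz m R g κ' x' y = uz m R N κ x y) ∧
  (∑ z ∈ range R, uz m R g κ' x' z = ∑ c ∈ range g, (m c + 1).choose 2) ∧
  (∀ y, Y ≤ y → y + 1 < R → uz m R g κ' x' (y + 1) ≤ uz m R g κ' x' y ∧
    uz m R g κ' x' y ≤ μ * (uz m R g κ' x' y - uz m R g κ' x' (y + 1))) ∧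
  (∀ y, Y + μ ≤ y → y < R → uz m R g κ' x' y = 0) ∧
  μ * uz m R g κ' x' Y + uz m R N κ x (Y - 1) ≤ μ * uz m R N κ x (Y - 1) + μ ^ 2

/-- XH (the rest satisfies HypW with `S = 1`). `R' = R - Y = 4 μ + 1`, `s y = if R' ≤ y + exc % R' then 1 else 0` is nondecreasing with
the sum `exc % R'` over `y < R'`. First part: `μ F Y ≤ μ ℓ (Y-1) + μ² - ℓ (Y-1) ≤ μ ℓ (Y-1)`, `F` decreases, `ℓ` increases. `h0`, `h1`: with
`ℓ'' y = ℓ (Y+y) - F (Y+y) + exc / R' + s y`: `μ (ℓ'' (y+1) - ℓ'' y) + ℓ'' y ≥ μ (F (Y+y) - F (Y+y+1)) + ℓ (Y+y) - F (Y+y) ≥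
ℓ (Y+y) ≥ 27 μ²`. `h2`: there `F = 0` (`y ≥ 3 μ`), `ℓ` is linear, and the second difference of `s` is `≤ 1`. `tot`: subtract. -/
def GoalXH : Prop := ∀ (μ R Y N g exc : ℕ) (m ℓ F : ℕ → ℕ), 1 ≤ μ → Y + 4 * μ + 1 = R → 1 ≤ Y →
  g ≤ N → (∀ c, g ≤ c → 1 ≤ m c ∧ m c ≤ μ) → (∀ c c', g ≤ c → c ≤ c' → m c' ≤ m c) →
  (∀ y, Y ≤ y + 1 → y < R → 27 * μ ^ 2 ≤ ℓ y) →
  (∀ y, Y ≤ y + 1 → y + 1 < R → ℓ y ≤ ℓ (y + 1)) →
  (∀ y, R ≤ y + 1 + μ → y + 2 < R → ℓ y + ℓ (y + 2) = 2 * ℓ (y + 1)) →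
  (∀ y, Y ≤ y → y + 1 < R → F (y + 1) ≤ F y ∧ F y ≤ μ * (F y - F (y + 1))) →
  (∀ y, Y + μ ≤ y → y < R → F y = 0) →
  μ * F Y + ℓ (Y - 1) ≤ μ * ℓ (Y - 1) + μ ^ 2 →
  ∑ c ∈ range N, (m c + 1).choose 2 = ∑ z ∈ range R, ℓ z + exc →
  ∑ c ∈ range g, (m c + 1).choose 2 = ∑ z ∈ range Y, ℓ z + ∑ z ∈ Ico Y R, F z →
  (∀ y, Y ≤ y → y < R → F y ≤ ℓ y) ∧
  HypW μ 1 (R - Y) (N - g) (fun c => m (g + c))
    (fun y => ℓ (Y + y) - F (Y + y) + exc / (R - Y) +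
      (if R - Y ≤ y + exc % (R - Y) then 1 else 0))

/-- PX (prices). For `c < g` as PGu (`Pool/Agent/Helper67/UW/PGu.lean`), for `c ≥ g` as `SG.GoalP` (`Pool/Agent/Helper40/SG/P.lean`).
Use PA with the ranks `r t = κ t` for `t < Y` (`≤ g`), `r t = g + 2 + (t - Y)` for `t ≥ Y` (one step for every rank). Points `c < g`:
`rk = c`, `sl = 2 Dr`, `Dr = R + 2`; `P' t = 2 (m (κ t) - x t) + 1` if `0 < x t`, `2 (m (κ t) + R - t) + 1` otherwise; `δ t = (P' t - P' (t+1)) Dr + 1` if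
`t + 1 < Y` and `κ (t+1) = κ t`, otherwise (`t < Y`) `δ t = P' t Dr + 1` (all exactly as in PG; the block of `c < g` consists of the rows
`t < Y` with `κ t = c`). For `t ≥ Y` `δ t = Δ`, a number divisible by all `1, …, R` and `≥ 8 R²`, e.g. `Δ = 8 R² * R !`. Points `c ≥ g`, with
`s = s (c - g)`, `z = z (c - g)`: `rk = g + 1 + s`, `sl = 1` if `s = 0`, `sl = Δ / (z - s) - 1` if `s ≥ 1` (the step of rank `g + 1 + s` is the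
one from the row `Y + s - 1` to `Y + s`; there is none for `s = 0`). `V y = π y - ε y`. Rows `y ≥ Y + s`: later rows are worse (no step of
rank `rk` after `Y + s`). Rows `y` with `y + 1 < Y + s`, or `s = 0` and `y < Y`: all the later rows are better (`r y < rk`). Row
`Y + s - 1` (`s ≥ 1`): the row `Y + s + j` is better iff `(j + 1) sl < Δ` iff `j + 1 ≤ z - s` (`(z - s) sl = Δ - (z - s) < Δ`,
`(z - s + 1) sl = Δ - (z - s) + Δ / (z - s) - 1 > Δ`). So the number of better rows is: `y - Y - s`, plus one if `Y + z ≤ y` and `s ≥ 1`, for `y ≥ Y + s`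
(`s = 0` and `z ≤ y - Y`: the value `nv` is smaller than necessary, which is fine); `z - s` for `Y + s - 1`; `R - 1 - y` for the earlier
rows; for `y < Y` the value is `0`. -/
def GoalPX : Prop := GoalPA → GoalU1 → ∀ (m : ℕ → ℕ) (R Y g N : ℕ) (κ x s z : ℕ → ℕ),
  (∀ c < N, 1 ≤ m c ∧ m c + 2 ≤ R) → (∀ c, g ≤ c → c < N → m c + Y ≤ R) →
  1 ≤ Y → Y + 2 ≤ R → g ≤ N → UPlay m R N κ x →
  (∀ y < Y, κ y ≤ g ∧ (κ y = g → x y = 0)) → (∀ y, Y ≤ y → κ y = g) →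
  (∀ c < N - g, s c < R - Y ∧ s c < z c ∧ z c ≤ R - Y) →
  ∃ π ε : ℕ → ℤ, Pri R m (xv m R Y g κ x s z) π ε N

/-- XT (from prices to regions). Reverse the rows: `pri_rev` (`Pool/Agent/Helper49/Gm/F2.lean`), then `GoalA2` with the row
`j = R - 1 - y`; see the proof of TrN (`Pool/Agent/Helper55/UN/TrN.lean`). -/
def GoalXT : Prop := GoalA2 → ∀ (D : Finset (ℕ × ℕ)) (R N : ℕ) (ℓ m : ℕ → ℕ) (n : ℕ → ℕ → ℕ)
  (π ε : ℕ → ℤ), Rg D R ℓ → Pri R m n π ε N → (∀ y < R, ℓ y ≤ ∑ c ∈ range N, n c y) →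
  Inj D (rows m (range N))

/-- the data of Case II -/
structure CD (A0 Hg : Finset ℕ) (m : ℕ → ℕ) (M Mb R A β : ℕ) (lam : ℕ → ℕ) : Prop where
  sh : Sh M Mb R A β lam
  sub : Hg ⊆ A0
  hug : ∀ k ∈ Hg, 1 ≤ m k ∧ m k ≤ Mb
  oth : ∀ k ∈ A0, k ∉ Hg → 1 ≤ m k ∧ m k ≤ M
  ar : 8 * ∑ k ∈ Hg, (m k + 1).choose 2 ≤ (rowsD R lam).card
  lo : (rowsD R lam).card ≤ ∑ k ∈ A0, (m k + 1).choose 2
  hi : ∑ k ∈ A0, (m k + 1).choose 2 ≤ (rowsD R lam).card + M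

/-- the exact play of Case II -/
structure CP2 (A0 : Finset ℕ) (m : ℕ → ℕ) (M Mb R A : ℕ) (lam m' : ℕ → ℕ)
    (μ N00 N0 N exc : ℕ) : Prop where
  μA : 28 * μ ^ 2 ≤ A
  sg : Sg m' M Mb μ R A (60 * M) N00 N0 N (fun y => lam (R - 1 - y)) (-(exc : ℤ))
  one : ∀ c, N0 ≤ c → 1 ≤ m' c ∧ m' c ≤ μ
  anti : ∀ c c', N0 ≤ c → c ≤ c' → m' c' ≤ m' c
  tot : ∑ c ∈ range N, (m' c + 1).choose 2 = ∑ z ∈ range R, lam (R - 1 - z) + exc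
  inj : ∀ D : Finset (ℕ × ℕ), Inj D (rows m' (range N)) → Inj D (rows m A0)

/-- CIIa. `μ = min M (Nat.sqrt (A / 28))` (`1 ≤ μ`, `28 μ² ≤ A`), `Bg` = the set of the `k ∈ A0 \ Hg` with `A < 28 (m k)²`; the other `k ∈ A0 \ Hg`
have `m k ≤ μ`. RL2n; `exc = t(A0) - card ≤ M`, `card = ∑_{z<R} lam (R-1-z)` (Pfn, `e = 0`; `lc lam 0 = lam`). `Sg`: `pf` is Pfn with `e = 0`, `pa0` the fifth
part of Pfn; `pa`: `t(Hg) + t(Bg) ≤ card / 8 + A² / 10^6`, `A² ≤ 2^8 A R ≤ 1280 card` (`area`), and the last `60 M` rows have at most `60 M A ≤ card / 1000`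
cells (`A R ≤ 5 card`, `2^400 M ≤ R`); `Zs`: `4 M ≤ A ≤ μ A`. -/
def GoalCIIa : Prop := GoalPfn → GoalRL2n →
  ∀ (A0 Hg : Finset ℕ) (m : ℕ → ℕ) (M Mb R A β : ℕ) (lam : ℕ → ℕ), CD A0 Hg m M Mb R A β lam →
  10 ^ 6 * ∑ k ∈ (A0 \ Hg).filter (fun k => A < 28 * m k ^ 2), (m k + 1).choose 2 < A ^ 2 →
  ∃ (m' : ℕ → ℕ) (μ N00 N0 N exc : ℕ), CP2 A0 m M Mb R A lam m' μ N00 N0 N exc

/-- CIIb. `ℓ y = lam (R - 1 - y)`, `Y = R - 4 μ - 1` (`≥ 1`). R1n gives `κ, x` on the rows `≤ R - 1 - μ` with exact rows. UCn (`UPre` restricted to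
the rows `≤ Y`; `κ Y ≤ κ (R-1-μ) < N`; if `μ < m' c` then `c < N0`: for `c < N00` take `y = R - 60 M - 2 Mb`, otherwise `y = R - 60 M`). `g ≥ κ (Y-1) ≥
κ (R - 60 M) ≥ N0`. XH with `F = uz m' R g κ' x'`: `27 μ² ≤ ℓ y` for `y ≥ Y - 1` (`fl`: `100 ℓ y ≥ 99 A`, `28 μ² ≤ A`), `ℓ` nondecreasing (`anti` of Sh)
and linear in the last rows (`lin`, `μ ≤ M`); for the sums: the rows `< Y` are exact. GoalGW gives `s`, `z`; PX gives prices for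
`xv`; for `y < Y` `∑_c xv c y = uz m' R g κ' x' y = ℓ y`, for `y ≥ Y` it is `F y + Lo … (y - Y) ≥ ℓ y`. XT with `D = rowsD R lam` (`Rg` from Pfn, `e = 0`), then
`CP2.inj`. -/
def GoalCIIb : Prop := GoalPfn → GoalR1n → GoalUCn → GoalXH → GoalPX → GoalXT → GoalPA → GoalU1 →
  GoalGW → GoalA2 →
  ∀ (A0 Hg : Finset ℕ) (m : ℕ → ℕ) (M Mb R A β : ℕ) (lam m' : ℕ → ℕ) (μ N00 N0 N exc : ℕ),
  CD A0 Hg m M Mb R A β lam → CP2 A0 m M Mb R A lam m' μ N00 N0 N exc →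
  Inj (rowsD R lam) (rows m A0)

/-- the core statement -/
def CoreN : Prop := ∀ (A0 Hg : Finset ℕ) (m : ℕ → ℕ) (M Mb R A β : ℕ) (lam : ℕ → ℕ),
  CD A0 Hg m M Mb R A β lam → Inj (rowsD R lam) (rows m A0)

/-- Core. Pig (`UW.GoalPig` with `A := A0 \ Hg`, `d := A`), Case I, Case II. -/
theorem coreN_of (h1 : GoalPig) (h2 : CaseIn)
    (h3 : ∀ (A0 Hg : Finset ℕ) (m : ℕ → ℕ) (M Mb R A β : ℕ) (lam : ℕ → ℕ),
      CD A0 Hg m M Mb R A β lam →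
      10 ^ 6 * ∑ k ∈ (A0 \ Hg).filter (fun k => A < 28 * m k ^ 2), (m k + 1).choose 2 < A ^ 2 →
      Inj (rowsD R lam) (rows m A0)) : CoreN := by
  intro A0 Hg m M Mb R A β lam h
  rcases Nat.lt_or_ge (10 ^ 6 * ∑ k ∈ (A0 \ Hg).filter (fun k => A < 28 * m k ^ 2),
    (m k + 1).choose 2) (A ^ 2) with h4 | h4
  · exact h3 A0 Hg m M Mb R A β lam h h4
  · obtain ⟨μ, δ, a1, a2, a3, a4⟩ := h1 (A0 \ Hg) m M A
      (fun k hk => h.oth k (mem_sdiff.1 hk).1 (mem_sdiff.1 hk).2) h.sh.M1 h.sh.hA h4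
    exact h2 A0 Hg m M Mb R A β μ δ lam h.sh h.sub h.hug h.oth h.ar h.lo h.hi a1 a2 a3 a4

/-- the conclusion of Redn -/
def RedC : Prop := ∀ (Hg Ns : Finset ℕ) (m : ℕ → ℕ) (M Mb R A β : ℕ) (lam : ℕ → ℕ),
  Sh M Mb R A β lam → Disjoint Hg Ns → (∀ k ∈ Hg, m k ≤ Mb) → (∀ k ∈ Ns, m k ≤ M) →
  8 * ∑ k ∈ Hg, (m k + 1).choose 2 ≤ (rowsD R lam).card → GoodFor (rowsD R lam) m (Hg ∪ Ns)

/-- Redn (reduction to the core). As Red (`Pool/Agent/Helper32/UW/Red.lean`), `D = rowsD R lam`. If `t(Hg ∪ Ns) ≤ D.card`: add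
`D.card - t` new indices with multiplicity `1` to `Ns`; CoreN for `A0 = {k : 1 ≤ m' k}`, the matrix is square, `InjAt.ind`, `Ind.mono`,
`rows_congr`. If `D.card < t`: lower multiplicities of points of `Ns` (`t(Hg) ≤ D.card`) until `D.card ≤ t' ≤ D.card + M`; CoreN and
`Inj.mono`. -/
def GoalRedn : Prop := CoreN → RedC

/-- T1n (more facts on the stages). From `rr_wall`, `rr_lev`, `lev_red` (`Pool/Agent/Helper18/CuspShape.lean`, `b < a 2`: `rr b =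
3 (n - 3 b) - ∑ (a i - b)`) and `val_zero`, `val_eq`, `val_one`, `val_two`, `val_main` (`Pool/Agent/Helper79/SG/T1.lean`). Put `e = n - 3 b`,
`p = a 0 - b`, `q = a 1 - b`. (1) `p < e` at `b + 1` (and so at `b`); by `val_main` at `b` and `b + 1`: `rr b ≤ 3 e - SS b`, `≤ 4 e - 2 p - 2 q`; if
`rr (b+1) = 3 (e - 3) - SS (b+1)`: `SS (b+1) ≤ SS b`, difference `≤ 9`; if `rr (b+1) = 4 (e - 3) - 2 p' - 2 q'` with `p' ≥ p - 1`, `q' ≥ q - 1`,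
then (this is the case `p' + q' ≥ e - 2 ≥ 1`, `q' ≥ 1`, by `val_two`; so `p' = p - 1`, `q' = q - 1`) the difference is `≤ 8`. (2) If `a 8 < a 2`: the formula for `b = a 8`. If
`a 8 = a 2`: `val_one` at `b = a 8` (`p + q ≤ e` as `a 0 + a 1 + a 2 ≤ n`). (3) `rr_strict`: otherwise `n = 3 (b + 1)`, `rr (b+1) = 1`, `rr b ≤ 1`; `a 0 ≤ b + 1`
(T1(1) at `b + 1`), `e = 3`, `p ≤ 1`; if `b < a 2` then `1 ≥ rr b = 9 - SS b`, so (`hsum`) eight of the `a i` are `b + 1`: `a 7 = a 0 = b + 1`; if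
`a 2 ≤ b`: `rr b = 9 - p - q ≥ 7` (`val_one`). (4) `a 0 = … = a 7`, `n = 3 a 0`, so `kap = a 0 - a 8`. For `b < a 0 = a 2`: `rr b = 9 (a 0 - b) - 8 (a 0 - b) - (a 8 - b)`.
For `b = a 0`: `e = 0`, `p = 0`, `rr = 1` (`val_eq`); `b > a 0`: `rr_zero`. -/
def GoalT1n : Prop := GoalT1a → GoalT1 → ∀ (n : ℕ) (a : ℕ → ℕ), Red n a →
  (∀ b, (a 0 - (b + 1)) + 3 * (b + 1) < n → rr n a b ≤ rr n a (b + 1) + 9) ∧
  ((a 0 - a 8) + 3 * a 8 < n → rr n a (a 8) = kap n a) ∧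
  (¬ (n = 3 * a 0 ∧ a 7 = a 0) →
    ∀ b, a 8 ≤ b → 0 < rr n a (b + 1) → rr n a (b + 1) < rr n a b) ∧
  (n = 3 * a 0 → a 7 = a 0 → ∀ b,
    rr n a b = if b < a 0 then min (kap n a) (a 0 - b) else if b = a 0 then 1 else 0)

/-- the conclusion of T1n -/
def T1c : Prop := ∀ (n : ℕ) (a : ℕ → ℕ), Red n a →
  (∀ b, (a 0 - (b + 1)) + 3 * (b + 1) < n → rr n a b ≤ rr n a (b + 1) + 9) ∧
  ((a 0 - a 8) + 3 * a 8 < n → rr n a (a 8) = kap n a) ∧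
  (¬ (n = 3 * a 0 ∧ a 7 = a 0) →
    ∀ b, a 8 ≤ b → 0 < rr n a (b + 1) → rr n a (b + 1) < rr n a b) ∧
  (n = 3 * a 0 → a 7 = a 0 → ∀ b,
    rr n a b = if b < a 0 then min (kap n a) (a 0 - b) else if b = a 0 then 1 else 0)

/-- ShN1 (the cubic). `lam = rr d a`, `R = τ + 1`, `A = kap`, `Mb = M`, `β = 0`. `z`: `rr_wall` (`0 < a 8`). `anti`: `rr_antitone`. `str`: if
`b < a 8` then `rr (b+1) = rr b = kap ≥ M`, or the inequality is strict (`rr b = kap` by `rr_wall`); if `a 8 ≤ b`: T1c(3). `lin`: `j + 1 ≤ M ≤ a 8`; `rr_wall` if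
`j + 1 < a 8`; if `j + 1 = a 8 = M`: T1c(2), where `(a 0 - a 8) + 3 a 8 < d` by T1(1), since `a 8 + 1 = M + 1 ≤ τ`. `nine`: `j + 2 ≤ τ`, T1(1) for `j + 2` gives
`(a 0 - (j+1)) + 3 (j+1) < d`, T1c(1). `area`: the sequence `r_j = rr (τ - j)`, `j ≤ τ`, with `r_0` replaced by `r_0 - 1` is concave (T1(2), (3)) and
`≥ 0`, so `τ r_j ≥ j kap` for `j ≤ τ`, hence `2 ∑ rr ≥ kap (τ + 1)`. -/
def GoalShN1 : Prop := GoalT1 → T1c → ∀ (d M τ : ℕ) (a : ℕ → ℕ), Red d a → 1 ≤ M → M ≤ a 8 →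
  (∀ b, 0 < rr d a b ↔ b ≤ τ) → ¬ (d = 3 * a 0 ∧ a 7 = a 0) →
  2 ^ 400 * lg M ^ 3 * M ≤ kap d a → 2 ^ 400 * lg M ^ 3 * M ≤ τ + 1 →
  kap d a ≤ 2 ^ 8 * (τ + 1) → Sh M M (τ + 1) (kap d a) 0 (rr d a)

/-- ShNk (pencils). `lam j = blk (rr d a) k j = ∑_{i<k} rr (k j + i)`, `R = τ / k + 1`, `A = k kap`, `Mb = M`, `β = 0`. The hypothesis
`k (k kap) + 2 k ≤ a 8` implies `k (M + 1) ≤ a 8` and `kap + k + 1 ≤ a 8` (`k ≥ 2`, `k kap ≥ 2^400 M`). `lam j = k kap` for `k (j + 1) ≤ a 8` (`rr_wall`); so `z`,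
`lin`, `nine` (`950 j ≤ k kap` gives `k (j + 2) ≤ a 8`). `pos`: `k j ≤ τ` for `j < R`. `anti`: `rr_antitone`. `str`: if `lam (j+1) = lam j` then `rr (k j + i) =
rr (k j + k + i)` for all `i < k`, so by monotonicity `rr` is constant on `[k j, k j + 2 k - 1]`, and it is not `0` (`k j + k ≤ τ`); by `rr_strict` there cannot be two
consecutive equalities `rr b = rr (b+1) = rr (b+2) > 0` with `a 8 ≤ b` (the exception needs `d = 3 (b + 1)`, `d = 3 (b + 2)`), so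
`k j < a 8`, `rr (k j) = kap` and `lam (j+1) = k kap ≥ M`. `area`: `∑_{j<R} lam j = ∑_{b≤τ} rr b ≥ kap a 8`; `rr (a 8 + i + 1) + i ≤ kap` for `a 8 + i + 2 ≤ τ` (`rr_strict`), so
`τ ≤ a 8 + kap + 2`; `A R ≤ kap (τ + k) ≤ 5 kap a 8`. -/
def GoalShNk : Prop := GoalT1 → ∀ (d M k τ : ℕ) (a : ℕ → ℕ), Red d a → 1 ≤ M → 2 ≤ k →
  (∀ b, 0 < rr d a b ↔ b ≤ τ) → k * (k * kap d a) + 2 * k ≤ a 8 →
  2 ^ 400 * lg M ^ 3 * M ≤ k * kap d a → 2 ^ 400 * lg M ^ 3 * M ≤ τ / k + 1 →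
  k * kap d a ≤ 2 ^ 8 * (τ / k + 1) → Sh M M (τ / k + 1) (k * kap d a) 0 (blk (rr d a) k)

/-- ShN2 (the exceptional shape, pencil with `k = 2`). `p = a 0`, `h = kap = p - a 8`; by T1c(4) `rr b = min h (p - b)` for `b < p`,
`rr p = 1`, `0` beyond. `lam j = rr (2 j) + rr (2 j + 1)`, `R = p / 2 + 1`, `A = 2 h`. `lin`, `z`: `lam j = 2 h` for `2 j + 2 ≤ a 8` (`j ≤ M`). `str`: the last
two values are `2, 1` (`p = 2 (R-1)`: `lam (R-1) = 1`, `lam (R-2) = 2 + 1`) or `lam (R-1) = 1 + 1`, `lam (R-2) = 3 + 2`, before the differences are `0` (then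
`lam (j+1) = 2 h ≥ M`), `1`, `3` or `4`. `area`: `∑ = h (p - h) + h (h + 1) / 2 + 1 ≥ h p / 2`, `A R ≤ h (p + 2)`. -/
def GoalShN2 : Prop := T1c → ∀ (d M : ℕ) (a : ℕ → ℕ), Red d a → 1 ≤ M → d = 3 * a 0 → a 7 = a 0 →
  2 * M + 2 ≤ a 8 → 2 ^ 400 * lg M ^ 3 * M ≤ kap d a → 2 ^ 401 * lg M ^ 3 * M ≤ a 0 →
  Sh M M (a 0 / 2 + 1) (2 * kap d a) 0 (blk (rr d a) 2)

/-- ShD (dominating point). `lam i = min δ (d - i) + 1`: constant `δ + 1` for `i ≤ d - δ`, then decreasing by one. -/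
def GoalShD : Prop := ∀ (M δ d : ℕ), 1 ≤ M → 32 * δ < d → 2 ^ 400 * lg M ^ 3 * M ≤ δ →
  Sh M δ (d + 1) (δ + 1) 0 (fun i => min δ (d - i) + 1)

/-- MD (dominating point). `δ = d - m 0`. `long_finish` (`Pool/Agent/Helper18/Np/Cases.lean`) and `GoodFor.swap`: the image of
`rowsD (δ + 1) (fun y => d + 1 - y)` under the exchange is `rowsD (d + 1) (fun i => min δ (d - i) + 1)`. RedC with `Hg = Ico 1 9`, `Ns = Ico 9 s`, `Mb = δ`: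
`m 1 + m 2 ≤ δ`, so `m i ≤ δ` for `i ≥ 1` and `2 m i ≤ δ` for `i ≥ 2`, and `8 t(Hg) ≤ 4 δ (δ + 1) + 28 (δ/2) (δ/2 + 1)… ≤ 11 δ² + 18 δ ≤ (δ + 1) (d + 1 - δ/2) =`
card. -/
def GoalMD : Prop := RedC → GoalShD → ∀ (s : ℕ) (m : ℕ → ℕ) (d : ℕ), Antitone m →
  (∀ i, s ≤ i → m i = 0) → m 0 + m 1 + m 2 ≤ d → 1 ≤ m 9 → 32 * (d - m 0) < d →
  2 ^ 400 * lg (m 9) ^ 3 * m 9 ≤ d - m 0 → Concl s m d

/-- MN1 (cubic). `a = tr m 9`, as in the case `k = 1` of T4 (`Pool/Agent/Helper50/SG/T4.lean`: `red_tr`, `cubic_finish`, `mem_DS`, `exists_tau`). RedC with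
`Hg = ∅`, `Ns = Ico 9 s`, `rowsD (τ + 1) (rr d a)`. Bounds for `τ`: `b = δ / 2` if `δ / 2 ≤ m 0` (`δ = d - m 0`, `m 0 + 2 b ≤ d`), `b = d / 3` otherwise (then
`m 0 < d / 3`); so `d ≤ 64 (τ + 1)`, `kap ≤ 3 d`. -/
def GoalMN1 : Prop := RedC → GoalShN1 → GoalT1 → T1c → ∀ (s : ℕ) (m : ℕ → ℕ) (d : ℕ), Antitone m →
  (∀ i, s ≤ i → m i = 0) → m 0 + m 1 + m 2 ≤ d → 1 ≤ m 9 → ∑ i ∈ range 9, m i < 3 * d →
  d ≤ 32 * (d - m 0) → 2 ^ 406 * lg (m 9) ^ 3 * m 9 ≤ d →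
  2 ^ 400 * lg (m 9) ^ 3 * m 9 + ∑ i ∈ range 9, m i ≤ 3 * d → ¬ (d = 3 * m 0 ∧ m 7 = m 0) →
  Concl s m d

/-- MNk (pencils). `L = lg (m 9)`, `M = m 9`, `H = 2^410 L³ M`, `h = kap d m = 3 d - ∑_{i<9} m i < H`, `k = (H - 1) / h + 1 ≥ 2`: `H ≤ k h < 2 H`, `k ≤ 2 H / h`. `V = C(d+2,2) -
∑_{i<9} C(m i + 1, 2) = ∑_b rr b` (`sum_rr_eq`, `tot_of` in `Pool/Agent/Helper50/SG/T4.lean`), `V ≥ 2^860 L^6 M² = 2^40 H²`. `V ≤ h (τ + 1)`, so `τ / k + 1 ≥ V / (2 H)`.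
`V ≤ h (m 8) + h + (h + 1)²` (`rr_strict`: beyond `a 8` the values are `≤ h, h - 1, …, 1, 1`), so `m 8 ≥ V / (2 h) ≥ 2^39 H² / h`, and `k (k h) + 2 k ≤ 8 H² / h`. Then as in T4,
case `k ≥ 2` (`hex`, `slab_finish`, `mem_DR'`, `rk_eq`): RedC with `Hg = ∅`, `Ns = Ico 9 s`, `rowsD (τ / k + 1) (blk (rr d m) k)`, ShNk (`k h < 2 H ≤ 2^8 (τ / k + 1)`). -/
def GoalMNk : Prop := RedC → GoalShNk → GoalT1 → ∀ (s : ℕ) (m : ℕ → ℕ) (d : ℕ), Antitone m →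
  (∀ i, s ≤ i → m i = 0) → m 0 + m 1 + m 2 ≤ d → 1 ≤ m 9 → ∑ i ∈ range 9, m i < 3 * d →
  3 * d < 2 ^ 410 * lg (m 9) ^ 3 * m 9 + ∑ i ∈ range 9, m i →
  2 ^ 860 * lg (m 9) ^ 6 * m 9 ^ 2 + ∑ i ∈ range 9, (m i + 1).choose 2 ≤ (d + 2).choose 2 →
  Concl s m d

/-- MN2 (exceptional shape, `k = 2`). As MNk with `k = 2`, ShN2 (`a = m`, `τ = m 0`). -/
def GoalMN2 : Prop := RedC → GoalShN2 → T1c → ∀ (s : ℕ) (m : ℕ → ℕ) (d : ℕ), Antitone m →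
  (∀ i, s ≤ i → m i = 0) → 1 ≤ m 9 → d = 3 * m 0 → m 7 = m 0 → 2 * m 9 + 2 ≤ m 8 →
  2 ^ 401 * lg (m 9) ^ 3 * m 9 ≤ m 0 → 2 ^ 400 * lg (m 9) ^ 3 * m 9 + m 8 ≤ m 0 → Concl s m d

/-- the conclusion of XC -/
def XCc : Prop := ∀ (e : ℕ) (m : ℕ → ℕ) (s : Finset ℕ), 1 ≤ e →
  OkU (triD 0 e) m s → OkU (triD 0 (e - 1)) m s → GoodFor (insert (0, e) (triD 0 (e - 1))) m s

/-- XC (a triangle and one more cell). `D = insert (0, e) (triD 0 (e - 1))`, `D' = insert (e, 0) (triD 0 (e - 1))`, `c0 = (triD 0 (e-1)).card`,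
`t = (rows m s).card`. If `t ≤ c0`: OkU gives `Ind (triD 0 (e-1))` (or `Inj` and `t = c0`, then `Ind` by `InjAt.ind`), `Ind.mono`; if moreover `D.card ≤ t`: impossible. Let
`t ≥ c0 + 1 = D.card`. `Inj D` suffices (if `t = D.card` then also `Ind D`, `InjAt.ind`). If `Inj (triD 0 e)`: `Inj.mono`. Otherwise `Ind (triD 0 e)`, and
`Inj (triD 0 (e - 1))`; CP: common positions `P`. `K` = the kernel of the conditions at `P` on `triD 0 e`, `dim K = c0 + e + 1 - t ≤ e` (`ker_dim`, `Helper2/EW/GT.lean`);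
`V` = its diagonal polynomials `∑ c (i, e-i) X^i`, `finrank V ≤ e`. The polynomials `(X + t)^e`, `t ∈ ℂ`, span the `e + 1`-dimensional space of the
polynomials of degree `≤ e`, so `(X + t0)^e ∉ V` for some `t0`. Let `P' k = (x_k + t0 y_k, y_k)`, and let `c`, supported on `D'`, satisfy the conditions at `P'`. GNs (`ε = 1`)
gives `c' ∈ K` with the diagonal polynomial `c (e, 0) (X + t0)^e ∈ V`, so `c (e, 0) = 0`; then `c'` vanishes on the diagonal, so `c' = 0` (`InjAt (triD 0 (e-1)) P`),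
`c = 0`. So `Inj D'`, and Sw gives `Inj D`. -/
def GoalXC : Prop := GoalCP → GoalSw → GoalGNs → XCc

/-- X8 (exceptional shape, small `m 8`). `a = tr m 8`: `Red d a`, `kap d a = m 0`, by T1c(4) `rr b = m 0 - b` for `b < m 0`, `rr (m 0) = 1`, so the region
`DS d a (d + 1)` (`mem_DS`) is `insert (0, m 0) (triD 0 (m 0 - 1))`. `cubic_finish` with `j = 8`, XCc with `e = m 0`; OkU from the hypothesis (this is UW, the main theorem of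
helper18) for the multiplicities `fun i => m (i + 8)` and the degrees `m 0`, `m 0 - 1`, after renumbering `Ico 8 s` (as `EW.GoalRx`, `Pool/Agent/Helper*/EW/Rx.lean`, or the transfer in
`Pool/Agent/Helper55/UW/RL.lean`): `lg (m 8) ≤ lg (m 9) + 2`, `(L + 2)³ ≤ 2 L³` (`L ≥ 10`), `m 8 ≤ 3 m 9`. -/
def GoalX8 : Prop := (∀ (s : ℕ) (m : ℕ → ℕ) (d : ℕ), Antitone m → (∀ i, s ≤ i → m i = 0) →
    2 ^ 400 * lg (m 0) ^ 3 * m 0 ≤ d → OkU (triD 0 d) m (range s)) →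
  XCc → T1c → ∀ (s : ℕ) (m : ℕ → ℕ) (d : ℕ), Antitone m → (∀ i, s ≤ i → m i = 0) →
  1 ≤ m 9 → d = 3 * m 0 → m 7 = m 0 → m 8 ≤ 2 * m 9 + 1 → m 8 < m 0 →
  2 ^ 405 * lg (m 9) ^ 3 * m 9 ≤ m 0 → Concl s m d

/-- FinN (real constants). `Nat.log 2 M + 10 ≤ 10 (1 + log M)` for `M = m 9 ≥ 1`; `C = 2^860 * 10^6`. If `m 9 ≤ 1` or `3 d ≤ ∑_{i<9} m i`:
`SG.main_room` (`Pool/Agent/Helper18/SG/Main2.lean`). -/
def GoalFinN : Prop :=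
  (∀ (s : ℕ) (m : ℕ → ℕ) (d : ℕ), Antitone m → (∀ i, s ≤ i → m i = 0) → m 0 + m 1 + m 2 ≤ d →
    2 ≤ m 9 → ∑ i ∈ range 9, m i < 3 * d → m 0 + 2 ^ 411 * lg (m 9) ^ 3 * m 9 ≤ d →
    2 ^ 860 * lg (m 9) ^ 6 * m 9 ^ 2 + ∑ i ∈ range 9, (m i + 1).choose 2 ≤ (d + 2).choose 2 →
    Concl s m d) →
  ∃ C : ℝ, 0 < C ∧ ∀ (s : ℕ) (m : ℕ → ℕ) (d : ℕ), Antitone m → (∀ i, s ≤ i → m i = 0) →
    m 0 + m 1 + m 2 ≤ d →
    (3 * d ≤ ∑ i ∈ range 9, m i ∨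
      ((m 0 : ℝ) + C * m 9 * (1 + Real.log (m 9)) ^ 3 ≤ d ∧
        C * (m 9 : ℝ) ^ 2 * (1 + Real.log (m 9)) ^ 6 +
          ((∑ i ∈ range 9, (m i + 1).choose 2 : ℕ) : ℝ) ≤ ((d + 2).choose 2 : ℕ))) →
    Concl s m d

end Pool.Agent.Helper43.UN
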