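import Mathlib
import Pool.Agent.Helper18.UW.Main
import Pool.Agent.Helper43.UN.GoalsG
import Pool.Agent.Helper12.UN.R1n
import Pool.Agent.Helper73.UN.R6an
import Pool.Agent.Helper65.UN.R6dn
import Pool.Agent.Helper69.UN.R6en
import Pool.Agent.Helper56.UN.R2n
import Pool.Agent.Helper9.UN.V0n
import Pool.Agent.Helper8.UN.V3sn
import Pool.Agent.Helper87.UN.V3dn
import Pool.Agent.Helper89.UN.V3un
import Pool.Agent.Helper33.UN.VAn
import Pool.Agent.Helper24.UN.RLn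
import Pool.Agent.Helper38.UN.Z8n
import Pool.Agent.Helper31.UN.Z9n
import Pool.Agent.Helper5.UN.Z10an
import Pool.Agent.Helper42.UN.Z10bn
import Pool.Agent.Helper51.UN.Z10n
import Pool.Agent.Helper43.UN.Bk.Z11n
import Pool.Agent.Helper82.UN.Z12n
import Pool.Agent.Helper48.UN.Z15n
import Pool.Agent.Helper86.UN.E8an
import Pool.Agent.Helper75.UN.E8bn
import Pool.Agent.Helper30.UN.E13n
import Pool.Agent.Helper96.UN.GameVn
import Pool.Agent.Helper55.UN.TrN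
import Pool.Agent.Helper39.UN.FUn

/-! Project UN: assembly of the window theorem. -/

set_option autoImplicit false

namespace Pool.Agent.Helper43.UN

open Pool.Agent.Helper18.EW (gH1 gH2 gH4 gE3 gE12 gPA)
open Pool.Agent.Helper18.UW (gU1 gU4 gV1 gV2 gGE4 gUG gE14v gBT)

theorem gRLn : GoalRLn := Pool.Agent.Helper24.UN.goalRLn
theorem gR1n : GoalR1n := Pool.Agent.Helper12.UN.goalR1n gU1 gU4 Pool.Agent.Helper12.UW.goalUC
theorem gR6an : GoalR6an := Pool.Agent.Helper73.UN.goalR6an gU1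
theorem gR6dn : GoalR6dn := Pool.Agent.Helper65.UN.goalR6dn gU1 gU4
theorem gR6en : GoalR6en := Pool.Agent.Helper69.UN.goalR6en gU4 gR6an
theorem gR2n : GoalR2n := Pool.Agent.Helper56.UN.goalR2n gU1 Pool.Agent.Helper12.UW.goalUC gR1n
  gR6dn
theorem gV0n : GoalV0n := Pool.Agent.Helper9.UN.goalV0n gU1 gR6dn
theorem gV3sn : GoalV3sn := Pool.Agent.Helper8.UN.goalV3sn gV2 gR6en
theorem gV3dn : GoalV3dn := Pool.Agent.Helper87.UN.goalV3dn gU1 gV1 gR6dn
theorem gV3un : GoalV3un := Pool.Agent.Helper89.UN.goalV3un gU1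
theorem gVAn : GoalVAn := Pool.Agent.Helper33.UN.goalVAn gU1 gV0n gV1 gV2 gV3sn gV3dn gV3un gR6an
theorem gZ8n : GoalZ8n := Pool.Agent.Helper38.UN.goalZ8n gE3
theorem gZ9n : GoalZ9n := Pool.Agent.Helper31.UN.goalZ9n gH4
theorem gZ10an : GoalZ10an := Pool.Agent.Helper5.UN.goalZ10an gZ8n gZ9n
theorem gZ10bn : GoalZ10bn := Pool.Agent.Helper42.UN.goalZ10bn gH1 gH4
theorem gZ10n : GoalZ10n := Pool.Agent.Helper51.UN.goalZ10n gE3 gZ10an gZ10bn
theorem gZ11n : GoalZ11n := goalZ11n' gH1 gH2 gE3 gH4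
theorem gZ12n : GoalZ12n := Pool.Agent.Helper82.UN.goalZ12n gH1 gH2 gH4
theorem gZ15n : GoalZ15n := Pool.Agent.Helper48.UN.goalZ15n gZ10n gZ10an gZ10bn gZ11n gZ12n
theorem gE8an : GoalE8an := Pool.Agent.Helper86.UN.goalE8an' gH1 gH4
theorem gE8bn : GoalE8bn := Pool.Agent.Helper75.UN.goalE8bn gE3 gE8an
theorem gE13n : GoalE13n := Pool.Agent.Helper30.UN.goalE13n gUG Pool.Agent.Helper20.UW.goalG7u
theorem gGameVn : GoalGameVn := Pool.Agent.Helper96.UN.goalGameVn gH1 gE8an gE8bn gGE4 gUG gE12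
  gE13n gE14v Pool.Agent.Helper55.UW.goalXf gZ15n
theorem gTrN : TrNc := Pool.Agent.Helper55.UN.goalTrN Pool.Agent.Helper18.SG.gA2
  (Pool.Agent.Helper67.UW.goalPGu gPA) gU1 gUG
/-- the window theorem -/
theorem gWG : WGc := Pool.Agent.Helper39.UN.goalFUn gRLn Pool.Agent.Helper34.UW.goalNU gUG gR2n
  gVAn gGameVn gBT gTrN

end Pool.Agent.Helper43.UN
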