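import Mathlib
import Pool.Agent.Helper43.UN.MainA
import Pool.Agent.Helper43.UN.GoalsH
import Pool.Agent.Helper94.UN.GNa
import Pool.Agent.Helper42.UN.GNb
import Pool.Agent.Helper89.UN.GNs
import Pool.Agent.Helper56.UN.GNt
import Pool.Agent.Helper43.UN.Bk.GN
import Pool.Agent.Helper61.UN.Pfn
import Pool.Agent.Helper75.UN.CIn
import Pool.Agent.Helper89.UN.RL2n
import Pool.Agent.Helper86.UN.UCn
import Pool.Agent.Helper93.UN.XH
import Pool.Agent.Helper12.UN.PX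
import Pool.Agent.Helper94.UN.XT
import Pool.Agent.Helper17.UN.CIIa
import Pool.Agent.Helper48.UN.CIIb
import Pool.Agent.Helper39.UN.Redn
import Pool.Agent.Helper38.UN.T1n
import Pool.Agent.Helper56.UN.ShN1
import Pool.Agent.Helper33.UN.ShNk
import Pool.Agent.Helper30.UN.ShN2
import Pool.Agent.Helper35.UN.ShD
import Pool.Agent.Helper35.UN.MD
import Pool.Agent.Helper83.UN.MN1
import Pool.Agent.Helper42.UN.MNk
import Pool.Agent.Helper82.UN.MN2
import Pool.Agent.Helper94.UN.XC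
import Pool.Agent.Helper77.UN.X8

/-! Project UN: assembly of the main theorem (natural numbers). -/

set_option autoImplicit false

namespace Pool.Agent.Helper43.UN

open Finset
open Pool.Agent.Lead.Sh
open Pool.Agent.Helper43.Ah (rowsD)
open Pool.Agent.Helper18.EW (gCP gWr gSw gInv gGT gF1Z gPA)
open Pool.Agent.Helper18.UW (lg gFU gSEL gU1 main_ok)
open Pool.Agent.Helper18.SG (gT1 gA2)
open Helper18.Cusp (Concl sum9)

theorem gGNt : GNtc := Pool.Agent.Helper56.UN.goalGNt gCP gWr gSw gInv gGT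
  Pool.Agent.Helper42.UN.goalGNb Pool.Agent.Helper89.UN.goalGNs
theorem gGN : GNc := goalGN' gCP Pool.Agent.Helper94.UN.goalGNa gGNt
theorem gPfn : GoalPfn := Pool.Agent.Helper61.UN.goalPfn
theorem gCIn : CaseIn := Pool.Agent.Helper75.UN.goalCIn gPfn gWG gFU gSEL gGN gF1Z

theorem gCIIn (A0 Hg : Finset ℕ) (m : ℕ → ℕ) (M Mb R A β : ℕ) (lam : ℕ → ℕ)
    (h : CD A0 Hg m M Mb R A β lam)
    (h2 : 10 ^ 6 * ∑ k ∈ (A0 \ Hg).filter (fun k => A < 28 * m k ^ 2), (m k + 1).choose 2 <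
      A ^ 2) : Inj (rowsD R lam) (rows m A0) := by
  obtain ⟨m', μ, N00, N0, N, exc, h3⟩ := Pool.Agent.Helper17.UN.goalCIIa gPfn
    Pool.Agent.Helper89.UN.goalRL2n A0 Hg m M Mb R A β lam h h2
  exact Pool.Agent.Helper48.UN.goalCIIb gPfn gR1n Pool.Agent.Helper86.UN.goalUCn
    Pool.Agent.Helper93.UN.goalXH Pool.Agent.Helper12.UN.goalPX Pool.Agent.Helper94.UN.goalXT
    gPA gU1 Pool.Agent.Helper18.SGW.goalGW gA2 A0 Hg m M Mb R A β lam m' μ N00 N0 N exc h h3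

theorem gCoreN : CoreN := coreN_of Pool.Agent.Helper35.UW.goalPig gCIn gCIIn
theorem gRed : RedC := Pool.Agent.Helper39.UN.goalRedn gCoreN
theorem gT1c : T1c := Pool.Agent.Helper38.UN.goalT1n Pool.Agent.Helper9.SG.goalT1a gT1
theorem gXC : XCc := Pool.Agent.Helper94.UN.goalXC gCP gSw Pool.Agent.Helper89.UN.goalGNs

/-- the main theorem, natural numbers -/
theorem mainN (s : ℕ) (m : ℕ → ℕ) (d : ℕ) (hm : Antitone m) (hs : ∀ i, s ≤ i → m i = 0)
    (hd : m 0 + m 1 + m 2 ≤ d) (h9 : 2 ≤ m 9) (hlt : ∑ i ∈ range 9, m i < 3 * d)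
    (h1 : m 0 + 2 ^ 411 * lg (m 9) ^ 3 * m 9 ≤ d)
    (h2 : 2 ^ 860 * lg (m 9) ^ 6 * m 9 ^ 2 + ∑ i ∈ range 9, (m i + 1).choose 2 ≤
      (d + 2).choose 2) : Concl s m d := by
  obtain ⟨Q, hQ⟩ : ∃ Q, Q = 2 ^ 400 * lg (m 9) ^ 3 * m 9 := ⟨_, rfl⟩
  have key : ∀ b : ℕ, 2 ^ (400 + b) * lg (m 9) ^ 3 * m 9 = 2 ^ b * Q := by
    intro b
    rw [hQ, pow_add]
    ring
  have k1 : 2 ^ 401 * lg (m 9) ^ 3 * m 9 = 2 * Q := by
    have := key 1
    simpa using this
  have k5 : 2 ^ 405 * lg (m 9) ^ 3 * m 9 = 32 * Q := (key 5).trans (by norm_num)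
  have k6 : 2 ^ 406 * lg (m 9) ^ 3 * m 9 = 64 * Q := (key 6).trans (by norm_num)
  have k10 : 2 ^ 410 * lg (m 9) ^ 3 * m 9 = 1024 * Q := (key 10).trans (by norm_num)
  have k11 : 2 ^ 411 * lg (m 9) ^ 3 * m 9 = 2048 * Q := (key 11).trans (by norm_num)
  rw [k11] at h1
  rcases Nat.lt_or_ge (32 * (d - m 0)) d with h3 | h3
  · exact Pool.Agent.Helper35.UN.goalMD gRed Pool.Agent.Helper35.UN.goalShD s m d hm hs hd
      (by omega) h3 (by rw [← hQ]; omega)
  rcases Nat.lt_or_ge (3 * d) (1024 * Q + ∑ i ∈ range 9, m i) with h4 | h4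
  · exact Pool.Agent.Helper42.UN.goalMNk gRed Pool.Agent.Helper33.UN.goalShNk gT1 s m d hm hs hd
      (by omega) hlt (by rw [k10]; exact h4) h2
  by_cases hex : d = 3 * m 0 ∧ m 7 = m 0
  · obtain ⟨e1, e2⟩ := hex
    have hc : ∀ i, i ≤ 7 → m i = m 0 := by
      intro i hi
      have a1 := hm hi
      have a2 := hm (Nat.zero_le i)
      omega
    have hsum : ∑ i ∈ range 9, m i = 8 * m 0 + m 8 := by
      rw [sum9, hc 1 (by norm_num), hc 2 (by norm_num), hc 3 (by norm_num), hc 4 (by norm_num),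
        hc 5 (by norm_num), hc 6 (by norm_num), hc 7 (by norm_num)]
      ring
    rw [hsum] at h4 hlt
    rcases Nat.lt_or_ge (m 8) (2 * m 9 + 2) with h5 | h5
    · exact Pool.Agent.Helper77.UN.goalX8 main_ok gXC gT1c s m d hm hs (by omega) e1 e2
        (by omega) (by omega) (by rw [k5]; omega)
    · exact Pool.Agent.Helper82.UN.goalMN2 gRed Pool.Agent.Helper30.UN.goalShN2 gT1c s m d hm hs
        (by omega) e1 e2 h5 (by rw [k1]; omega) (by rw [← hQ]; omega)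
  · exact Pool.Agent.Helper83.UN.goalMN1 gRed Pool.Agent.Helper56.UN.goalShN1 gT1 gT1c s m d hm hs
      hd (by omega) hlt h3 (by rw [k6]; omega) (by rw [← hQ]; omega) hex

end Pool.Agent.Helper43.UN
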