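import Mathlib
import Pool.Agent.Helper43.UN.MainB
import Pool.Agent.Helper8.UN.FinN
import Pool.Agent.Helper18.SG.Main2
import Pool.Agent.Helper43.Gm.Main2
import Pool.Agent.Lead.RwMain

/-! Project UN: the final theorem. -/

set_option autoImplicit false

namespace Pool.Agent.Helper43.UN

open Finset
open Helper18.Cusp (Concl)

/-- `15 M²` conditions too many -/
theorem concl_neg {s : ℕ} {m : ℕ → ℕ} {d : ℕ} (hm : Antitone m) (hs : ∀ i, s ≤ i → m i = 0)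
    (hd : m 0 + m 1 + m 2 ≤ d) (h9 : 1 ≤ m 9)
    (h : (d + 2).choose 2 + 15 * m 9 ^ 2 ≤
      ∑ i ∈ range 9, (m i + 1).choose 2 + ∑ i ∈ Ico 9 s, (m i + 1).choose 2) : Concl s m d := by
  have h9s : 9 ≤ s := by
    by_contra hcon
    have := hs 9 (by omega)
    omega
  rw [sum_range_add_sum_Ico _ h9s] at h
  apply Pool.Agent.Helper43.Gm.main_reduced s m d hm hs hd
  right
  have h1 : (∑ i : Fin s, (Nat.choose (m (i : ℕ) + 1) 2 : ℤ)) =
      ((∑ i ∈ range s, (m i + 1).choose 2 : ℕ) : ℤ) := by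
    rw [Nat.cast_sum, Fin.sum_univ_eq_sum_range (fun i => (((m i + 1).choose 2 : ℕ) : ℤ)) s]
  rw [h1]
  have h2 : (((d + 2).choose 2 + 15 * m 9 ^ 2 : ℕ) : ℤ) ≤
      ((∑ i ∈ range s, (m i + 1).choose 2 : ℕ) : ℤ) := by exact_mod_cast h
  push_cast at h2 ⊢
  linarith

/-- the sum of the squares and the number of conditions -/
theorem sq_le (m : ℕ → ℕ) (S : Finset ℕ) :
    ∑ i ∈ S, (m i : ℝ) ^ 2 ≤ 2 * ((∑ i ∈ S, (m i + 1).choose 2 : ℕ) : ℝ) := by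
  rw [Nat.cast_sum, mul_sum]
  refine sum_le_sum fun i _ => ?_
  have h1 : (m i + 1).choose 2 = Pool.Agent.Helper43.Hw.T (m i) :=
    (Pool.Agent.Helper43.Hw.T_choose (m i)).symm
  have h2 := Pool.Agent.Helper43.Hw.two_T (m i)
  rw [h1]
  have h3 : m i ^ 2 ≤ 2 * Pool.Agent.Helper43.Hw.T (m i) := by rw [h2]; nlinarith
  exact_mod_cast h3

/-- **Main theorem of project UN.** -/
theorem main_nine : ∃ C : ℝ, 0 < C ∧ ∀ (s : ℕ) (m : ℕ → ℕ) (d : ℕ), Antitone m →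
    (∀ i, s ≤ i → m i = 0) → m 0 + m 1 + m 2 ≤ d →
    (3 * d ≤ ∑ i ∈ range 9, m i ∨
      ((m 0 : ℝ) + C * m 9 * (1 + Real.log (m 9)) ^ 3 ≤ d ∧
        (C * (m 9) ^ 2 * (1 + Real.log (m 9)) ^ 6 +
            ∑ i ∈ range 9, ((m i + 1).choose 2 : ℝ) ≤ ((d + 2).choose 2 : ℝ) ∨
          C * (m 9) ^ 2 * (1 + Real.log (m 9)) ^ 6 ≤ ∑ i ∈ Ico 9 s, (m i : ℝ) ^ 2))) →
    Concl s m d := by
  obtain ⟨C1, hC1, h1⟩ := Pool.Agent.Helper8.UN.goalFinN mainN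
  refine ⟨2 * C1 + 30, by positivity, ?_⟩
  intro s m d hm hs hd h
  rcases h with h3 | ⟨h3, h4⟩
  · exact h1 s m d hm hs hd (Or.inl h3)
  · rcases Nat.eq_zero_or_pos (m 9) with h9 | h9
    · exact Pool.Agent.Helper18.SG.main_room s m d hm hs hd (Or.inl (by omega))
    have hlog : 0 ≤ Real.log (m 9) := Real.log_natCast_nonneg _
    have hM : (1 : ℝ) ≤ m 9 := by exact_mod_cast h9
    obtain ⟨X, hX⟩ : ∃ X : ℝ, X = (m 9 : ℝ) * (1 + Real.log (m 9)) ^ 3 := ⟨_, rfl⟩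
    obtain ⟨Y, hY⟩ : ∃ Y : ℝ, Y = (m 9 : ℝ) ^ 2 * (1 + Real.log (m 9)) ^ 6 := ⟨_, rfl⟩
    have hX0 : 0 ≤ X := by rw [hX]; positivity
    have hY0 : (m 9 : ℝ) ^ 2 ≤ Y := by
      rw [hY]
      have : (1 : ℝ) ≤ (1 + Real.log (m 9)) ^ 6 := one_le_pow₀ (by linarith)
      nlinarith [sq_nonneg (m 9 : ℝ)]
    have hd1 : (m 0 : ℝ) + C1 * m 9 * (1 + Real.log (m 9)) ^ 3 ≤ d := by
      have e1 : C1 * m 9 * (1 + Real.log (m 9)) ^ 3 = C1 * X := by rw [hX]; ring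
      have e2 : (2 * C1 + 30) * m 9 * (1 + Real.log (m 9)) ^ 3 = (2 * C1 + 30) * X := by
        rw [hX]; ring
      rw [e2] at h3
      rw [e1]
      nlinarith [mul_nonneg (show (0 : ℝ) ≤ C1 + 30 by positivity) hX0]
    by_cases hroom : C1 * Y + ((∑ i ∈ range 9, (m i + 1).choose 2 : ℕ) : ℝ) ≤
        (((d + 2).choose 2 : ℕ) : ℝ)
    · refine h1 s m d hm hs hd (Or.inr ⟨hd1, ?_⟩)
      have e1 : C1 * (m 9 : ℝ) ^ 2 * (1 + Real.log (m 9)) ^ 6 = C1 * Y := by rw [hY]; ring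
      rw [e1]
      exact hroom
    · rw [not_le] at hroom
      have e3 : (2 * C1 + 30) * (m 9 : ℝ) ^ 2 * (1 + Real.log (m 9)) ^ 6 =
          (2 * C1 + 30) * Y := by rw [hY]; ring
      rw [e3] at h4
      have hY1 : 0 < Y := by
        have : (1 : ℝ) ≤ (m 9 : ℝ) ^ 2 := one_le_pow₀ hM
        linarith
      rcases h4 with h4 | h4
      · exfalso
        have e4 : ∑ i ∈ range 9, ((m i + 1).choose 2 : ℝ) =
            ((∑ i ∈ range 9, (m i + 1).choose 2 : ℕ) : ℝ) := by rw [Nat.cast_sum]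
        rw [e4] at h4
        nlinarith [mul_pos (show (0 : ℝ) < C1 + 30 by positivity) hY1]
      · apply concl_neg hm hs hd h9
        have h6 := sq_le m (Ico 9 s)
        have h7 : (((d + 2).choose 2 : ℕ) : ℝ) + 15 * (m 9 : ℝ) ^ 2 ≤
            ((∑ i ∈ range 9, (m i + 1).choose 2 : ℕ) : ℝ) +
              ((∑ i ∈ Ico 9 s, (m i + 1).choose 2 : ℕ) : ℝ) := by
          nlinarith [mul_pos hC1 hY1]
        exact_mod_cast h7

end Pool.Agent.Helper43.UN
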